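import Mathlib
import Pool.Agent.H6.LD.Bsc

set_option autoImplicit false
set_option linter.unusedSectionVars false

/-!
# THEOREM LE (lines: Boolean combinations of few formulas of bounded depth and bounded weight): definitions

A block of a formula is a maximal subformula `A -> B` which is not a part of a larger disjunction or
conjunction of the same kind (`not` is free, `A -> B` is `not A or B`). `om k s`: the weight of a block with `s` occurrences of
variables. `wb k F b`: the sum of the weights of all blocks of `F` (`b = true`) or `not F`
(`b = false`), read as a conjunction: the outermost block is not counted if it is a conjunction. `Pc k F`: `F` and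
`not F` have at most `k` alternations. `ps k F`: the maximal subformulas with `Pc k`, the pieces of `F`.
`evp k v F`: the value of `F` if the pieces have the values `v`.
-/

namespace Pool.H6.LD

open Finset Classical Pool.Agent.H3.Frg Pool.Agent.H3.Frg2 Pool.Agent.H3.Frg4 Pool.Agent.H55.QT

/-- The weight of a block with `s` occurrences of variables. -/
def om (k s : ℕ) : ℕ := if k < s then Nat.log 2 s ^ 2 else 0

/-- The sum of the weights of the blocks of `F` (`b = true`) or `¬ F` (`b = false`), without the outermost
block if that is a conjunction. -/
def wb {V : Type} (k : ℕ) : Fm V → Bool → ℕ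
  | .var _, _ => 0
  | .neg A, b => wb k A (!b)
  | .imp A B, false => wb k A true + wb k B false
  | .imp A B, true => wb k A true + wb k B false + om k (Fm.imp A B).leaves

/-- The sum of the weights of the signed formulas of a list. -/
def lw {V : Type} (k : ℕ) (l : List (Fm V × Bool)) : ℕ := (l.map fun p => wb k p.1 p.2).sum

/-- At most `k` alternations. -/
def Pc {V : Type} (k : ℕ) (F : Fm V) : Prop := alt F true ≤ k ∧ alt F false ≤ k

/-- The pieces: the maximal subformulas with at most `k` alternations. -/
noncomputable def ps {V : Type} (k : ℕ) : Fm V → Finset (Fm V)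
  | .var v => {.var v}
  | .neg A => if Pc k (.neg A) then {.neg A} else ps k A
  | .imp A B => if Pc k (.imp A B) then {.imp A B} else ps k A ∪ ps k B

/-- The value of a formula, given the values of its pieces. -/
noncomputable def evp {V : Type} (k : ℕ) (v : Fm V → Bool) : Fm V → Bool
  | .var w => v (.var w)
  | .neg A => if Pc k (.neg A) then v (.neg A) else !evp k v A
  | .imp A B => if Pc k (.imp A B) then v (.imp A B) else !evp k v A || evp k v B

/-- `F` has at most `M` different pieces, of total weight at most `W`. -/
def Few {V : Type} (k M W : ℕ) (F : Fm V) : Prop :=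
  (ps k F).card ≤ M ∧ ∑ P ∈ ps k F, max (wb k P true) (wb k P false) ≤ W

/-- Truth of `F` (`b = true`) or `¬ F` (`b = false`) at a state: all values of the pieces which agree with the
pieces that are true or false at the state give `F` the value `b`. -/
def TT {n : ℕ} (Con : Finset (Fin n) → (Fin n → Bool) → Prop) (thr : ℕ → ℕ) (k : ℕ) (D : Finset (Fin n))
    (x : Fin n → Bool) (F : Fm (Fin n)) (b : Bool) : Prop :=
  ∀ v : Fm (Fin n) → Bool, (∀ P ∈ ps k F, ∀ c, Tr Con thr D x P c false → v P = c) → evp k v F = b

/-- Every set of `s` variables meets at most `C √(s n)` of the sets `B j`. -/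
def Tch {n m : ℕ} (C : ℝ) (B : Fin m → Finset (Fin n)) : Prop :=
  ∀ S : Finset (Fin n), ((univ.filter fun j => ¬ Disjoint (B j) S).card : ℝ) ≤ C * Real.sqrt (S.card * n)

end Pool.H6.LD
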