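import Mathlib
import Pool.Agent.H6.LE.Defs

set_option autoImplicit false
set_option linter.unusedSectionVars false

/-!
# Module WGT (THEOREM LE): basic facts on weights
-/

namespace Pool.H6.LD

open Finset Classical Pool.Agent.H3.Frg Pool.Agent.H3.Frg2 Pool.Agent.H3.Frg4 Pool.Agent.H55.QT

variable {V : Type} {k : ℕ}

theorem om_mono {s t : ℕ} (h : s ≤ t) : om k s ≤ om k t := by
  unfold om
  split_ifs with h1 h2
  · exact Nat.pow_le_pow_left (Nat.log_mono_right h) 2
  · omega
  · exact Nat.zero_le _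
  · exact le_rfl

theorem om_ge {s t : ℕ} (hk : k < t) (h : t ≤ s) : Nat.log 2 t ^ 2 ≤ om k s := by
  unfold om
  rw [if_pos (by omega)]
  exact Nat.pow_le_pow_left (Nat.log_mono_right h) 2

theorem wb_imp (A B : Fm V) : wb k (.imp A B) true = wb k (.imp A B) false + om k (Fm.imp A B).leaves := rfl

theorem wb_pm (F : Fm V) : wb k F true ≤ wb k F false + om k F.leaves ∧
    wb k F false ≤ wb k F true + om k F.leaves := by
  induction F with
  | var v => exact ⟨Nat.zero_le _, Nat.zero_le _⟩
  | neg A ih => exact ⟨ih.2, ih.1⟩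
  | imp A B _ _ =>
    rw [wb_imp]
    exact ⟨le_rfl, by omega⟩

theorem lw_cons (p : Fm V × Bool) (l : List (Fm V × Bool)) : lw k (p :: l) = wb k p.1 p.2 + lw k l := by
  simp [lw]

theorem lw_append (l l' : List (Fm V × Bool)) : lw k (l ++ l') = lw k l + lw k l' := by
  simp [lw]

theorem lw_filter (l : List (Fm V × Bool)) (P : Fm V × Bool → Bool) :
    lw k (l.filter P) ≤ lw k l := by
  induction l with
  | nil => simp [lw]
  | cons a l ih =>
    rw [List.filter_cons]
    split_ifs
    · rw [lw_cons, lw_cons]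
      omega
    · rw [lw_cons]
      omega

theorem lw_mem {l : List (Fm V × Bool)} {p : Fm V × Bool} (h : p ∈ l) : wb k p.1 p.2 ≤ lw k l := by
  induction l with
  | nil => simp at h
  | cons a l ih =>
    rw [lw_cons]
    rcases List.mem_cons.1 h with rfl | h
    · omega
    · have := ih h
      omega

theorem cj_lw (F : Fm V) (b : Bool) : lw k (cj F b) = wb k F b := by
  induction F generalizing b with
  | var v => simp [cj, lw]
  | neg A ih => exact ih _
  | imp A B ihA ihB =>
    cases b with
    | false =>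
      simp only [cj, lw_append, ihA, ihB]
      rfl
    | true => simp [cj, lw]

theorem lw_flat (l : List (Fm V × Bool)) : lw k (l.flatMap fun p => cj p.1 p.2) = lw k l := by
  induction l with
  | nil => simp [lw]
  | cons a l ih => rw [List.flatMap_cons, lw_append, lw_cons, ih, cj_lw]

theorem dj_wb {F : Fm V} {b : Bool} {p : Fm V × Bool} (h : p ∈ dj F b) : wb k p.1 p.2 ≤ wb k F (!b) := by
  have h1 := lw_mem (k := k) (cj_dj.1 h)
  rw [cj_lw] at h1
  refine le_trans ?_ h1
  rcases dj_form h with ⟨v, hv⟩ | ⟨A, B, hA, hb⟩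
  · rw [hv]
    exact Nat.zero_le _
  · rw [hA, hb]
    show wb k (Fm.imp A B) false ≤ wb k (Fm.imp A B) true
    rw [wb_imp]
    omega

theorem dj_wb' {A B : Fm V} {p : Fm V × Bool} (h : p ∈ dj (.imp A B) true) :
    wb k p.1 p.2 + om k (Fm.imp A B).leaves ≤ wb k (.imp A B) true := by
  have h1 := dj_wb (k := k) h
  have h2 : wb k (Fm.imp A B) (!true) = wb k (Fm.imp A B) false := rfl
  rw [h2] at h1
  rw [wb_imp]
  omega

theorem log_om {s t : ℕ} (hk : k < t) (ht : 2 ≤ t) (h : t ≤ s) :
    Real.log s ≤ 2 * om k s / Nat.log 2 t := by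
  have h1 : 1 ≤ Nat.log 2 t := Nat.log_pos (by norm_num) ht
  have h2 : Nat.log 2 t ≤ Nat.log 2 s := Nat.log_mono_right h
  have h3 : om k s = Nat.log 2 s ^ 2 := by
    unfold om
    rw [if_pos (by omega)]
  have hs : 0 < s := by omega
  have h4 : (s : ℝ) ≤ 2 ^ (Nat.log 2 s + 1) := by
    exact_mod_cast (Nat.lt_pow_succ_log_self (by norm_num) s).le
  have h5 : Real.log s ≤ (Nat.log 2 s + 1) * Real.log 2 := by
    have h6 := Real.log_le_log (by exact_mod_cast hs) h4
    rw [Real.log_pow] at h6
    push_cast at h6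
    exact h6
  have h6 : Real.log 2 ≤ 1 := by
    have := Real.log_two_lt_d9
    linarith
  have h7 : (1 : ℝ) ≤ Nat.log 2 t := by exact_mod_cast h1
  have h8 : (Nat.log 2 t : ℝ) ≤ Nat.log 2 s := by exact_mod_cast h2
  rw [le_div_iff₀ (by linarith), h3]
  push_cast
  have h9 : 0 ≤ Real.log 2 := Real.log_nonneg (by norm_num)
  calc Real.log s * Nat.log 2 t ≤ (Nat.log 2 s + 1) * Real.log 2 * Nat.log 2 t :=
        mul_le_mul_of_nonneg_right h5 (by linarith)
    _ ≤ (Nat.log 2 s + 1) * 1 * Nat.log 2 t := by gcongr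
    _ ≤ (Nat.log 2 s + Nat.log 2 s) * 1 * Nat.log 2 s := by gcongr; linarith
    _ = 2 * (Nat.log 2 s : ℝ) ^ 2 := by ring

theorem pc_neg {A : Fm V} : Pc k (.neg A) ↔ Pc k A := by
  unfold Pc
  simp only [alt, Bool.not_true, Bool.not_false]
  exact and_comm

theorem alt_pm {V : Type} (F : Fm V) :
    alt F false ≤ alt F true + 1 ∧ alt F true ≤ alt F false + 1 := by
  induction F with
  | var v => exact ⟨by simp [alt], by simp [alt]⟩
  | neg A ih =>
    simp only [alt, Bool.not_true, Bool.not_false]
    exact ⟨ih.2, ih.1⟩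
  | imp A B _ _ =>
    simp only [alt]
    omega

theorem pc_imp {A B : Fm V} (h : Pc k (.imp A B)) : Pc k A ∧ Pc k B := by
  have h1 := alt_pm A
  have h2 := alt_pm B
  unfold Pc at h ⊢
  simp only [alt] at h
  omega

theorem ps_piece {F : Fm V} (h : Pc k F) : ps k F = {F} := by
  cases F with
  | var v => rfl
  | neg A =>
    unfold ps
    rw [if_pos h]
  | imp A B =>
    unfold ps
    rw [if_pos h]

theorem ps_neg {A : Fm V} (h : ¬ Pc k (.neg A)) : ps k (.neg A) = ps k A := by
  conv_lhs => unfold ps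
  rw [if_neg h]

theorem ps_imp {A B : Fm V} (h : ¬ Pc k (.imp A B)) : ps k (.imp A B) = ps k A ∪ ps k B := by
  conv_lhs => unfold ps
  rw [if_neg h]

theorem evp_piece {v : Fm V → Bool} {F : Fm V} (h : Pc k F) : evp k v F = v F := by
  cases F with
  | var w => rfl
  | neg A =>
    unfold evp
    rw [if_pos h]
  | imp A B =>
    unfold evp
    rw [if_pos h]

theorem evp_neg {v : Fm V → Bool} {A : Fm V} (h : ¬ Pc k (.neg A)) : evp k v (.neg A) = !evp k v A := by
  conv_lhs => unfold evp
  rw [if_neg h]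

theorem evp_imp {v : Fm V → Bool} {A B : Fm V} (h : ¬ Pc k (.imp A B)) :
    evp k v (.imp A B) = (!evp k v A || evp k v B) := by
  conv_lhs => unfold evp
  rw [if_neg h]

theorem ps_pc {F : Fm V} : ∀ P ∈ ps k F, Pc k P := by
  induction F with
  | var v =>
    intro P hP
    have h1 : ps k (Fm.var v) = {.var v} := rfl
    rw [h1, mem_singleton] at hP
    rw [hP]
    exact ⟨Nat.zero_le _, Nat.zero_le _⟩
  | neg A ih =>
    intro P hP
    by_cases h : Pc k (Fm.neg A)
    · rw [ps_piece h, mem_singleton] at hP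
      rw [hP]
      exact h
    · rw [ps_neg h] at hP
      exact ih P hP
  | imp A B ihA ihB =>
    intro P hP
    by_cases h : Pc k (Fm.imp A B)
    · rw [ps_piece h, mem_singleton] at hP
      rw [hP]
      exact h
    · rw [ps_imp h, mem_union] at hP
      rcases hP with hP | hP
      · exact ihA P hP
      · exact ihB P hP

theorem ps_fv {F : Fm V} : ∀ P ∈ ps k F, fv P ⊆ fv F := by
  induction F with
  | var v =>
    intro P hP
    have h1 : ps k (Fm.var v) = {.var v} := rfl
    rw [h1, mem_singleton] at hP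
    rw [hP]
  | neg A ih =>
    intro P hP
    by_cases h : Pc k (Fm.neg A)
    · rw [ps_piece h, mem_singleton] at hP
      rw [hP]
    · rw [ps_neg h] at hP
      exact ih P hP
  | imp A B ihA ihB =>
    intro P hP
    by_cases h : Pc k (Fm.imp A B)
    · rw [ps_piece h, mem_singleton] at hP
      rw [hP]
    · rw [ps_imp h, mem_union] at hP
      rcases hP with hP | hP
      · exact (ihA P hP).trans subset_union_left
      · exact (ihB P hP).trans subset_union_right

theorem evp_congr {v v' : Fm V → Bool} {F : Fm V} (h : ∀ P ∈ ps k F, v P = v' P) :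
    evp k v F = evp k v' F := by
  induction F with
  | var w => exact h _ (mem_singleton_self _)
  | neg A ih =>
    by_cases hp : Pc k (Fm.neg A)
    · rw [evp_piece hp, evp_piece hp]
      exact h _ (by rw [ps_piece hp]; exact mem_singleton_self _)
    · rw [evp_neg hp, evp_neg hp, ih (by rwa [ps_neg hp] at h)]
  | imp A B ihA ihB =>
    by_cases hp : Pc k (Fm.imp A B)
    · rw [evp_piece hp, evp_piece hp]
      exact h _ (by rw [ps_piece hp]; exact mem_singleton_self _)
    · rw [ps_imp hp] at h
      rw [evp_imp hp, evp_imp hp, ihA fun P hP => h P (mem_union_left _ hP),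
        ihB fun P hP => h P (mem_union_right _ hP)]

theorem evp_eval {F : Fm V} {y : V → Bool} : evp k (fun P => P.eval y) F = F.eval y := by
  induction F with
  | var w => rfl
  | neg A ih =>
    by_cases hp : Pc k (Fm.neg A)
    · rw [evp_piece hp]
    · rw [evp_neg hp, ih]
      rfl
  | imp A B ihA ihB =>
    by_cases hp : Pc k (Fm.imp A B)
    · rw [evp_piece hp]
    · rw [evp_imp hp, ihA, ihB]
      rfl

/-- the total weight of a formula -/
theorem mx_neg (A : Fm V) : max (wb k (.neg A) true) (wb k (.neg A) false) =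
    max (wb k A true) (wb k A false) := by
  show max (wb k A false) (wb k A true) = _
  exact max_comm _ _

theorem mx_imp (A B : Fm V) : max (wb k A true) (wb k A false) ≤
    max (wb k (.imp A B) true) (wb k (.imp A B) false) ∧ max (wb k B true) (wb k B false) ≤
    max (wb k (.imp A B) true) (wb k (.imp A B) false) := by
  have h1 := (wb_pm (k := k) A)
  have h2 := (wb_pm (k := k) B)
  have h3 : wb k (.imp A B) true = wb k A true + wb k B false + om k (Fm.imp A B).leaves := rfl
  have h4 : (Fm.imp A B).leaves = A.leaves + B.leaves := rfl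
  have h5 := om_mono (k := k) (show A.leaves ≤ (Fm.imp A B).leaves by omega)
  have h6 := om_mono (k := k) (show B.leaves ≤ (Fm.imp A B).leaves by omega)
  constructor
  · refine (max_le ?_ ?_).trans (le_max_left _ _)
    · omega
    · omega
  · refine (max_le ?_ ?_).trans (le_max_left _ _)
    · omega
    · omega

theorem few_neg {M W : ℕ} {A : Fm V} (h : Few k M W (.neg A)) : Few k M W A := by
  by_cases hp : Pc k (Fm.neg A)
  · obtain ⟨h1, h2⟩ := h
    rw [ps_piece hp] at h1 h2
    rw [sum_singleton, mx_neg] at h2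
    unfold Few
    rw [ps_piece (pc_neg.1 hp), sum_singleton]
    exact ⟨h1, h2⟩
  · obtain ⟨h1, h2⟩ := h
    rw [ps_neg hp] at h1 h2
    exact ⟨h1, h2⟩

theorem few_imp {M W : ℕ} {A B : Fm V} (h : Few k M W (.imp A B)) : Few k M W A ∧ Few k M W B := by
  by_cases hp : Pc k (Fm.imp A B)
  · obtain ⟨h1, h2⟩ := h
    rw [ps_piece hp] at h1 h2
    rw [sum_singleton] at h2
    unfold Few
    rw [ps_piece (pc_imp hp).1, ps_piece (pc_imp hp).2, sum_singleton, sum_singleton]
    exact ⟨⟨h1, (mx_imp A B).1.trans h2⟩, h1, (mx_imp A B).2.trans h2⟩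
  · obtain ⟨h1, h2⟩ := h
    rw [ps_imp hp] at h1 h2
    exact ⟨⟨(card_le_card subset_union_left).trans h1,
      (sum_le_sum_of_subset subset_union_left).trans h2⟩,
      (card_le_card subset_union_right).trans h1, (sum_le_sum_of_subset subset_union_right).trans h2⟩

theorem mem_fv_imp {W : Type} {A B : Fm W} {i : W} : i ∈ fv (Fm.imp A B) ↔ i ∈ fv A ∨ i ∈ fv B := by
  show i ∈ fv A ∪ fv B ↔ _
  exact mem_union

theorem few_bind {M W : ℕ} {σ : ℕ → Fm V} (χ : Fm ℕ) (h : Few k M W (χ.bind σ)) :
    ∀ i ∈ fv χ, Few k M W (σ i) := by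
  induction χ with
  | var v =>
    intro i hi
    have h1 : fv (Fm.var v) = {v} := rfl
    rw [h1, mem_singleton] at hi
    rw [hi]
    exact h
  | neg A ih => exact ih (few_neg h)
  | imp A B ihA ihB =>
    intro i hi
    rw [mem_fv_imp] at hi
    rcases hi with hi | hi
    · exact ihA (few_imp h).1 i hi
    · exact ihB (few_imp h).2 i hi

end Pool.H6.LD
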