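import Mathlib
import Pool.Agent.H6.LD.Dec
import Pool.Agent.H6.LE.Wgt

set_option autoImplicit false
set_option linter.unusedSectionVars false

namespace Pool.H6.LD

open Finset Classical Pool.Agent.H3.Frg Pool.Agent.H3.Frg2 Pool.Agent.H3.Frg4 Pool.Agent.H55.QT

variable {n K : ℕ} {Con : Finset (Fin n) → (Fin n → Bool) → Prop} {thr : ℕ → ℕ}

private theorem cj_fv {V : Type} {F : Fm V} {b : Bool} {p : Fm V × Bool} (h : p ∈ cj F b) : fv p.1 ⊆ fv F := by
  induction F generalizing b with
  | var v =>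
    have h1 : cj (Fm.var v) b = [(Fm.var v, b)] := by cases b <;> rfl
    rw [h1, List.mem_singleton] at h
    rw [h]
  | neg A ih =>
    have h1 : cj (Fm.neg A) b = cj A (!b) := by cases b <;> rfl
    rw [h1] at h
    exact ih h
  | imp A B ihA ihB =>
    cases b with
    | false =>
      have h1 : cj (Fm.imp A B) false = cj A true ++ cj B false := rfl
      rw [h1, List.mem_append] at h
      have h2 : fv (Fm.imp A B) = fv A ∪ fv B := rfl
      rw [h2]
      rcases h with h | h
      · exact (ihA h).trans subset_union_left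
      · exact (ihB h).trans subset_union_right
    | true =>
      have h1 : cj (Fm.imp A B) true = [(Fm.imp A B, true)] := rfl
      rw [h1, List.mem_singleton] at h
      rw [h]

/-- the sum of the quotients of successive thresholds -/
private noncomputable def kaw (thr : ℕ → ℕ) (l : ℕ) : ℝ :=
  ∑ i ∈ range (l - 1), (thr i : ℝ) / (Nat.log 2 (thr (i + 1)) : ℝ) ^ 2

private theorem kaw_nonneg (thr : ℕ → ℕ) (l : ℕ) : 0 ≤ kaw thr l :=
  Finset.sum_nonneg fun _ _ => by positivity

private theorem kaw_mono (thr : ℕ → ℕ) {l l' : ℕ} (h : l ≤ l') : kaw thr l ≤ kaw thr l' := by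
  unfold kaw
  refine Finset.sum_le_sum_of_subset_of_nonneg ?_ fun _ _ _ => by positivity
  exact Finset.range_subset_range.2 (by omega)

private theorem kaw_succ (thr : ℕ → ℕ) {l : ℕ} (h : 1 ≤ l) :
    kaw thr (l + 1) = kaw thr l + (thr (l - 1) : ℝ) / (Nat.log 2 (thr l) : ℝ) ^ 2 := by
  obtain ⟨k, rfl⟩ : ∃ k, l = k + 1 := ⟨l - 1, by omega⟩
  unfold kaw
  have h1 : k + 1 + 1 - 1 = k + 1 := by omega
  have h2 : k + 1 - 1 = k := by omega
  rw [h1, h2, Finset.sum_range_succ]

/-- the statement for one formula -/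
private def Pd (Con : Finset (Fin n) → (Fin n → Bool) → Prop) (thr : ℕ → ℕ) (K k : ℕ) (F : Fm (Fin n)) : Prop :=
  ∀ (D : Finset (Fin n)) (x : Fin n → Bool),
    (D.card : ℝ) + kaw thr (max (alt F true) (alt F false)) * (min (wb k F true) (wb k F false) : ℕ) +
      thr (max (alt F true) (alt F false) - 1) ≤ K → Con D x →
    ∃ D' y, D ⊆ D' ∧ (D'.card : ℝ) ≤ D.card + kaw thr (max (alt F true) (alt F false)) * (min (wb k F true) (wb k F false) : ℕ) +
        thr (max (alt F true) (alt F false) - 1) ∧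
      (∀ v ∈ D, y v = x v) ∧ Con D' y ∧ (Tr Con thr D' y F true false ∨ Tr Con thr D' y F false false)

private theorem clm (h : Wld Con K) {A B G : Fm (Fin n)} {c : Bool} {D : Finset (Fin n)} {y : Fin n → Bool}
    (hG : (G, c) ∈ cj (.imp A B) false) (hT : Tr Con thr D y G (!c) false) :
    Tr Con thr D y (.imp A B) true false := by
  have h1 : Tr Con thr D y (.imp A B) true true := by
    rw [tr_dj]
    refine ⟨(G, !c), ?_, hT⟩
    rw [cj_dj]
    show (G, !!c) ∈ cj (.imp A B) (!true)
    rw [Bool.not_not]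
    exact hG
  unfold Tr at h1 ⊢
  rw [if_neg (fun h2 => by cases h2.1)] at h1
  split_ifs with h2
  · intro z hz hcz
    by_contra hne
    rw [Bool.not_eq_true] at hne
    have h3 := (cj_eval.1 hne) (G, c) hG
    have h4 := Tr.lt h hT z hz (h.mono _ _ _ (union_subset_union_right (cj_fv hG)) hcz)
    dsimp only at h3
    rw [h3] at h4
    cases c <;> cases h4
  · exact h1

/-- small members -/
private def Sm (thr : ℕ → ℕ) (G : Fm (Fin n)) : Prop := (∃ v, G = .var v) ∨ G.leaves < thr (alt G true)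

private theorem sm_tr {D : Finset (Fin n)} {x : Fin n → Bool} {G : Fm (Fin n)} {c : Bool}
    (hf : (∃ v, G = .var v) ∨ ∃ A B, G = .imp A B ∧ c = true) (hs : Sm thr G) (hl : Lt Con D x G c) :
    Tr Con thr D x G c false := by
  rcases hf with ⟨v, rfl⟩ | ⟨A, B, rfl, rfl⟩
  · unfold Tr
    exact hl
  · unfold Tr
    rcases hs with ⟨v, hv⟩ | hs
    · cases hv
    · rw [if_pos ⟨rfl, hs⟩]
      exact hl

private theorem dlist (h : Wld Con K) (hmono : Monotone thr) (h0 : 2 ≤ thr 0) {k : ℕ} (hk0 : k < thr 0) (l : ℕ) (L : List (Fm (Fin n) × Bool))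
    (hf : ∀ p ∈ L, (∃ v, p.1 = .var v) ∨ ∃ A B, p.1 = .imp A B ∧ p.2 = true)
    (ha : ∀ p ∈ L, alt p.1 true + 1 ≤ l) (hP : ∀ p ∈ L, Pd Con thr K k p.1) :
    ∀ (D : Finset (Fin n)) (x : Fin n → Bool), (D.card : ℝ) + kaw thr l * lw k L ≤ K → Con D x →
      (∀ p ∈ L, Sm thr p.1 → Lt Con D x p.1 p.2) →
      ∃ D' y, D ⊆ D' ∧ (D'.card : ℝ) ≤ D.card + kaw thr l * lw k L ∧ (∀ v ∈ D, y v = x v) ∧ Con D' y ∧
        ((∃ p ∈ L, Tr Con thr D' y p.1 (!p.2) false) ∨ ∀ p ∈ L, Tr Con thr D' y p.1 p.2 false) := by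
  induction L with
  | nil =>
    intro D x hD hc _
    refine ⟨D, x, Subset.refl _, ?_, fun _ _ => rfl, hc, Or.inr fun p hp => ?_⟩
    · have h2 : lw k ([] : List (Fm (Fin n) × Bool)) = 0 := rfl
      rw [h2, Nat.cast_zero, mul_zero, add_zero]
    · cases hp
  | cons p L ih =>
    intro D x hD hc hL
    have hk := kaw_nonneg thr l
    have e1 : lw k (p :: L) = wb k p.1 p.2 + lw k L := lw_cons p L
    rw [e1, Nat.cast_add] at hD
    have hL0 : (0 : ℝ) ≤ lw k L := Nat.cast_nonneg _
    have hp0 : (0 : ℝ) ≤ wb k p.1 p.2 := Nat.cast_nonneg _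
    have ih' := ih (fun q hq => hf q (List.mem_cons_of_mem _ hq)) (fun q hq => ha q (List.mem_cons_of_mem _ hq))
      (fun q hq => hP q (List.mem_cons_of_mem _ hq))
    have hkp : 0 ≤ kaw thr l * wb k p.1 p.2 := mul_nonneg hk hp0
    have hkL : 0 ≤ kaw thr l * lw k L := mul_nonneg hk hL0
    have step : ∀ (D₁ : Finset (Fin n)) (y₁ : Fin n → Bool), D ⊆ D₁ →
        (D₁.card : ℝ) ≤ D.card + kaw thr l * wb k p.1 p.2 → (∀ v ∈ D, y₁ v = x v) → Con D₁ y₁ →
        Tr Con thr D₁ y₁ p.1 p.2 false →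
        ∃ D' y, D ⊆ D' ∧ (D'.card : ℝ) ≤ D.card + kaw thr l * lw k (p :: L) ∧ (∀ v ∈ D, y v = x v) ∧ Con D' y ∧
        ((∃ q ∈ p :: L, Tr Con thr D' y q.1 (!q.2) false) ∨ ∀ q ∈ p :: L, Tr Con thr D' y q.1 q.2 false) := by
      intro D₁ y₁ hD₁ hc₁ hy₁ hcon₁ hT
      obtain ⟨D', y, h1, h2, h3, h4, h5⟩ := ih' D₁ y₁ (by nlinarith) hcon₁
        (fun q hq hs => Lt.mono h hD₁ hy₁ (hL q (List.mem_cons_of_mem _ hq) hs))
      refine ⟨D', y, hD₁.trans h1, ?_, fun v hv => (h3 v (hD₁ hv)).trans (hy₁ v hv), h4, ?_⟩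
      · rw [e1, Nat.cast_add]
        nlinarith
      · rcases h5 with ⟨q, hq, h5⟩ | h5
        · exact Or.inl ⟨q, List.mem_cons_of_mem _ hq, h5⟩
        · refine Or.inr fun q hq => ?_
          rcases List.mem_cons.1 hq with hqp | hq
          · rw [hqp]
            exact Tr.mono h h1 h3 hT
          · exact h5 q hq
    by_cases hs : Sm thr p.1
    · have h7 : (D.card : ℝ) ≤ D.card + kaw thr l * wb k p.1 p.2 := by linarith
      refine step D x (Subset.refl _) h7 (fun _ _ => rfl) hc ?_
      exact sm_tr (hf p List.mem_cons_self) hs (hL p List.mem_cons_self hs)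
    · have hform : ∃ A B, p.1 = .imp A B ∧ p.2 = true := by
        rcases hf p List.mem_cons_self with h1 | h1
        · exact absurd (Or.inl h1) hs
        · exact h1
      obtain ⟨A, B, hAB, hc2⟩ := hform
      have hlv : thr (alt p.1 true) ≤ p.1.leaves := by
        by_contra h1
        exact hs (Or.inr (not_le.1 h1))
      have hal := ha p List.mem_cons_self
      have e2 : alt p.1 true = alt p.1 false + 1 := by
        rw [hAB]
        rfl
      obtain ⟨l', hl'⟩ : ∃ l', l' = alt p.1 true := ⟨_, rfl⟩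
      have e3 : max (alt p.1 true) (alt p.1 false) = l' := by omega
      have hl1 : 1 ≤ l' := by omega
      rw [← hl'] at hlv hal
      have hthr : (0 : ℝ) < thr l' := by
        have h1 := hmono (Nat.zero_le l')
        exact_mod_cast (show 0 < thr l' by omega)
      have hw : wb k p.1 true = wb k p.1 false + om k p.1.leaves := by
        rw [hAB]
        exact wb_imp A B
      have hom : Nat.log 2 (thr l') ^ 2 ≤ om k p.1.leaves :=
        om_ge (hk0.trans_le (hmono (Nat.zero_le l'))) hlv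
      have hlg : 0 < Nat.log 2 (thr l') :=
        Nat.log_pos (by norm_num) (h0.trans (hmono (Nat.zero_le l')))
      have hlg' : (0 : ℝ) < (Nat.log 2 (thr l') : ℝ) ^ 2 := by
        have : (0 : ℝ) < Nat.log 2 (thr l') := by exact_mod_cast hlg
        positivity
      have hw1 : (wb k p.1 false : ℝ) ≤ wb k p.1 true := by exact_mod_cast (by omega : wb k p.1 false ≤ wb k p.1 true)
      have hw2 : (Nat.log 2 (thr l') : ℝ) ^ 2 ≤ wb k p.1 true := by
        exact_mod_cast (by omega : Nat.log 2 (thr l') ^ 2 ≤ wb k p.1 true)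
      have e4 : min (wb k p.1 true) (wb k p.1 false) = wb k p.1 false := by omega
      have hq : (thr (l' - 1) : ℝ) ≤ (thr (l' - 1) : ℝ) / (Nat.log 2 (thr l') : ℝ) ^ 2 * wb k p.1 true := by
        rw [div_mul_eq_mul_div, le_div_iff₀ hlg']
        exact mul_le_mul_of_nonneg_left hw2 (Nat.cast_nonneg _)
      have hcost : kaw thr l' * wb k p.1 false + thr (l' - 1) ≤ kaw thr l * wb k p.1 p.2 := by
        rw [hc2]
        have h1 := kaw_mono thr (show l' + 1 ≤ l from hal)
        rw [kaw_succ thr hl1] at h1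
        have h2 := mul_le_mul_of_nonneg_right h1 (Nat.cast_nonneg (α := ℝ) (wb k p.1 true))
        rw [add_mul] at h2
        have h3 := mul_le_mul_of_nonneg_left hw1 (kaw_nonneg thr l')
        linarith
      have hPp := hP p List.mem_cons_self D x
      rw [e3, e4] at hPp
      obtain ⟨D₁, y₁, h1, h2, h3, h4, h5⟩ := hPp (by nlinarith) hc
      have h6 : (D₁.card : ℝ) ≤ D.card + kaw thr l * wb k p.1 p.2 := by linarith
      rcases h5 with h5 | h5
      · exact step D₁ y₁ h1 h6 h3 h4 (by rw [hc2]; exact h5)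
      · refine ⟨D₁, y₁, h1, ?_, h3, h4, Or.inl ⟨p, List.mem_cons_self, ?_⟩⟩
        · rw [e1, Nat.cast_add]
          nlinarith
        · rw [hc2]
          exact h5

private theorem dimp (h : Wld Con K) (hmono : Monotone thr) (h0 : 2 ≤ thr 0) {k : ℕ} (hk0 : k < thr 0) (A B : Fm (Fin n))
    (hP : ∀ p ∈ cj (.imp A B) false, Pd Con thr K k p.1) : Pd Con thr K k (.imp A B) := by
  intro D x hD hc
  have e2 : alt (Fm.imp A B) true = alt (Fm.imp A B) false + 1 := rfl
  have e3 : max (alt (Fm.imp A B) true) (alt (Fm.imp A B) false) = alt (Fm.imp A B) true := by omega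
  have e4 : min (wb k (Fm.imp A B) true) (wb k (Fm.imp A B) false) = wb k (Fm.imp A B) false := by
    rw [wb_imp]
    omega
  rw [e3, e4] at hD ⊢
  obtain ⟨l, hl⟩ : ∃ l, l = alt (Fm.imp A B) true := ⟨_, rfl⟩
  rw [← hl] at hD ⊢
  have hk := kaw_nonneg thr l
  have hF0 : (0 : ℝ) ≤ wb k (Fm.imp A B) false := Nat.cast_nonneg _
  have ht0 : (0 : ℝ) ≤ thr (l - 1) := Nat.cast_nonneg _
  have hkF : 0 ≤ kaw thr l * wb k (Fm.imp A B) false := mul_nonneg hk hF0
  by_cases hsm : ∀ p ∈ cj (.imp A B) false, Sm thr p.1 → Lt Con D x p.1 p.2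
  · have hlv : lw k (cj (Fm.imp A B) false) = wb k (Fm.imp A B) false := cj_lw _ _
    have hh := dlist h hmono h0 hk0 l (cj (.imp A B) false) (fun p hp => cj_form hp)
      (fun p hp => by rw [hl]; exact (cj_alt1 hp).1) hP D x
    rw [hlv] at hh
    obtain ⟨D', y, h1, h2, h3, h4, h5⟩ := hh (by linarith) hc hsm
    refine ⟨D', y, h1, by linarith, h3, h4, ?_⟩
    rcases h5 with ⟨p, hp, h5⟩ | h5
    · exact Or.inl (clm h (show (p.1, p.2) ∈ _ from hp) h5)
    · exact Or.inr (tr_cj.2 h5)
  · push Not at hsm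
    obtain ⟨p, hp, hs, hnl⟩ := hsm
    unfold Lt at hnl
    push Not at hnl
    obtain ⟨y, hy, hcy, hev⟩ := hnl
    have hcard : ((fv p.1).card : ℝ) ≤ thr (l - 1) := by
      rcases hs with ⟨v, hv⟩ | hs
      · rw [hv]
        have h1 : (fv (Fm.var v)).card = 1 := card_singleton v
        rw [h1]
        have h2 := hmono (Nat.zero_le (l - 1))
        exact_mod_cast (show 1 ≤ thr (l - 1) by omega)
      · have h1 := fv_card p.1
        have h2 := (cj_alt1 hp).1
        rw [← hl] at h2
        have h3 := hmono (show alt p.1 true ≤ l - 1 by omega)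
        exact_mod_cast (show (fv p.1).card ≤ thr (l - 1) by omega)
    refine ⟨D ∪ fv p.1, y, subset_union_left, ?_, hy, hcy, Or.inl ?_⟩
    · have h1 : ((D ∪ fv p.1).card : ℝ) ≤ D.card + (fv p.1).card := by exact_mod_cast card_union_le D (fv p.1)
      linarith
    · refine clm h (show (p.1, p.2) ∈ _ from hp) (tr_full h subset_union_right ?_)
      cases h1 : p.1.eval y <;> cases h2 : p.2 <;> simp_all

private theorem dall (h : Wld Con K) (hmono : Monotone thr) (h0 : 2 ≤ thr 0) {k : ℕ} (hk0 : k < thr 0) (F : Fm (Fin n)) :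
    Pd Con thr K k F ∧ ∀ b, ∀ p ∈ cj F b, Pd Con thr K k p.1 := by
  induction F with
  | var v =>
    have hP : Pd Con thr K k (.var v) := by
      intro D x hD hc
      have e1 : max (alt (Fm.var v) true) (alt (Fm.var v) false) = 0 := rfl
      have e2 : kaw thr 0 = 0 := rfl
      rw [e1, e2, zero_mul, add_zero] at hD ⊢
      have e3 : (0 : ℕ) - 1 = 0 := rfl
      rw [e3] at hD ⊢
      have ht : (2 : ℝ) ≤ thr 0 := by exact_mod_cast h0
      have hlt : D.card < K := by
        have h1 : (D.card : ℝ) < K := by linarith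
        exact_mod_cast h1
      obtain ⟨y, hy, hcy⟩ := h.ext D x v hlt hc
      refine ⟨insert v D, y, subset_insert v D, ?_, hy, hcy, ?_⟩
      · have h1 : ((insert v D).card : ℝ) ≤ D.card + 1 := by exact_mod_cast card_insert_le v D
        linarith
      · have h2 : fv (Fm.var v) ⊆ insert v D := by
          show ({v} : Finset (Fin n)) ⊆ insert v D
          exact singleton_subset_iff.2 (mem_insert_self v D)
        cases hb : (Fm.var v).eval y
        · exact Or.inr (tr_full h h2 hb)
        · exact Or.inl (tr_full h h2 hb)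
    refine ⟨hP, fun b p hp => ?_⟩
    have h1 : cj (Fm.var v) b = [(Fm.var v, b)] := by cases b <;> rfl
    rw [h1, List.mem_singleton] at hp
    rw [hp]
    exact hP
  | neg A ih =>
    refine ⟨?_, fun b p hp => ?_⟩
    · intro D x hD hc
      have e1 : max (alt (Fm.neg A) true) (alt (Fm.neg A) false) = max (alt A true) (alt A false) := by
        show max (alt A false) (alt A true) = _
        exact max_comm _ _
      have e2 : min (wb k (Fm.neg A) true) (wb k (Fm.neg A) false) = min (wb k A true) (wb k A false) := by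
        show min (wb k A false) (wb k A true) = _
        exact min_comm _ _
      rw [e1, e2] at hD ⊢
      obtain ⟨D', y, h1, h2, h3, h4, h5⟩ := ih.1 D x hD hc
      refine ⟨D', y, h1, h2, h3, h4, ?_⟩
      rcases h5 with h5 | h5
      · refine Or.inr ?_
        unfold Tr
        exact h5
      · refine Or.inl ?_
        unfold Tr
        exact h5
    · have h1 : cj (Fm.neg A) b = cj A (!b) := by cases b <;> rfl
      rw [h1] at hp
      exact ih.2 _ p hp
  | imp A B ihA ihB =>
    have hP : ∀ p ∈ cj (.imp A B) false, Pd Con thr K k p.1 := by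
      intro p hp
      have h1 : cj (Fm.imp A B) false = cj A true ++ cj B false := rfl
      rw [h1, List.mem_append] at hp
      rcases hp with hp | hp
      · exact ihA.2 _ p hp
      · exact ihB.2 _ p hp
    have hI := dimp h hmono h0 hk0 A B hP
    refine ⟨hI, fun b p hp => ?_⟩
    cases b with
    | false => exact hP p hp
    | true =>
      have h1 : cj (Fm.imp A B) true = [(Fm.imp A B, true)] := rfl
      rw [h1, List.mem_singleton] at hp
      rw [hp]
      exact hI

theorem decw (h : Wld Con K) (hmono : Monotone thr) (h0 : 2 ≤ thr 0) {k d : ℕ} (hk : k < thr 0) {θ : ℝ}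
    (hθ : ∑ i ∈ range d, (thr i : ℝ) / (Nat.log 2 (thr (i + 1)) : ℝ) ^ 2 ≤ θ) {F : Fm (Fin n)}
    (hF : alt F true ≤ d) (hF' : alt F false ≤ d) {D : Finset (Fin n)} {x : Fin n → Bool}
    (hD : (D.card : ℝ) + θ * (max (wb k F true) (wb k F false) : ℕ) + thr d ≤ K) (hc : Con D x) :
    ∃ D' y, D ⊆ D' ∧ (D'.card : ℝ) ≤ D.card + θ * (max (wb k F true) (wb k F false) : ℕ) + thr d ∧
      (∀ v ∈ D, y v = x v) ∧ Con D' y ∧ (Tr Con thr D' y F true false ∨ Tr Con thr D' y F false false) := by
  obtain ⟨l, hl⟩ : ∃ l, l = max (alt F true) (alt F false) := ⟨_, rfl⟩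
  have hld : l ≤ d := by omega
  have hk0 := kaw_nonneg thr l
  have hkaw : kaw thr l ≤ θ := by
    refine le_trans ?_ hθ
    unfold kaw
    refine Finset.sum_le_sum_of_subset_of_nonneg ?_ fun _ _ _ => by positivity
    exact Finset.range_subset_range.2 (by omega)
  have hmm : ((min (wb k F true) (wb k F false) : ℕ) : ℝ) ≤ (max (wb k F true) (wb k F false) : ℕ) := by
    exact_mod_cast (min_le_left _ _).trans (le_max_left _ _)
  have h1 : kaw thr l * (min (wb k F true) (wb k F false) : ℕ) ≤ θ * (max (wb k F true) (wb k F false) : ℕ) :=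
    mul_le_mul hkaw hmm (Nat.cast_nonneg _) (hk0.trans hkaw)
  have h2 : (thr (l - 1) : ℝ) ≤ thr d := by exact_mod_cast hmono (show l - 1 ≤ d by omega)
  have hP := (dall h hmono h0 hk F).1 D x
  rw [← hl] at hP
  obtain ⟨D', y, h3, h4, h5, h6, h7⟩ := hP (by linarith) hc
  exact ⟨D', y, h3, by linarith, h5, h6, h7⟩

end Pool.H6.LD
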