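import Mathlib
import Pool.Agent.H6.LD.Cns
import Pool.Agent.H6.LE.Dec

set_option autoImplicit false
set_option linter.unusedSectionVars false

/-!
# Module TOPA (THEOREM LE): truth of Boolean combinations of pieces

`TT` in Defs. PROOFS. Basic facts on `ps`, `evp`, `Few` are in Wgt (`ps_piece`, `ps_neg`, `ps_imp`, `evp_piece`, `evp_neg`, `evp_imp`, `ps_pc`, `evp_congr`).
* `tt_mono`: the pieces which are true at `(D, x)` are true at `(D', x')` (`Tr.mono`), so the condition on `v` is stronger.
* `tt_piece`: `ps k F = {F}`, `evp k v F = v F`. Right to left clear. Left to right: if `Tr D x F b false` fails take `v F = !b` (`v := fun _ => !b`): it satisfies the condition (`c = b` impossible, `c = !b` fine), so `!b = b`.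
* `tt_neg`: if `Pc k (neg A)` then `Pc k A` (`pc_neg`), use `tt_piece` twice and `Tr (neg A) b i = Tr A (!b) i`. Otherwise `ps_neg`, `evp_neg`.
* `tt_nb`: `v P := decide (Tr D x P true false)` satisfies the condition for `P ∈ ps k F` (`Pc k P` by `ps_pc`; if `Tr P false false` then not `Tr P true false` by `tr_not_both` with `T = thr k`, `hT` from `Monotone`).
  So `evp k v F` is `true` and `false`.
* `tt_imp`: if `Pc k (imp A B)` then `A`, `B` are pieces (`pc_imp`), `tt_piece` and `tr_imp`. Otherwise `D' = D`: `ps_imp`, `evp_imp`.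
* `tt_dec`: decide all pieces one after the other with `decw` (Finset induction over `ps k F`, statement: for all `S ⊆ ps k F` every state with room extends to a state and a function `v` with `Tr D' y P (v P) false` for all `P ∈ S`;
  the number of new variables is (as a real number) at most `θ * ∑ P ∈ S, max (wb k P true) (wb k P false) + S.card * thr k`; truth of the earlier pieces stays by `Tr.mono`). At the end the value is `b := evp k v F`: if `v'` satisfies the condition
  of `TT` at `(D', y)` then `v' P = v P` for all `P ∈ ps k F`, so `evp k v' F = b` (`evp_congr`).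
-/

namespace Pool.H6.LD

open Finset Classical Pool.Agent.H3.Frg Pool.Agent.H3.Frg2 Pool.Agent.H3.Frg4 Pool.Agent.H55.QT

variable {n K k : ℕ} {Con : Finset (Fin n) → (Fin n → Bool) → Prop} {thr : ℕ → ℕ}

theorem tt_mono (h : Wld Con K) {D D' : Finset (Fin n)} {x x' : Fin n → Bool} {F : Fm (Fin n)} {b : Bool}
    (hD : D ⊆ D') (hx : ∀ v ∈ D, x' v = x v) (hl : TT Con thr k D x F b) : TT Con thr k D' x' F b := by
  intro v hv
  exact hl v fun P hP c hc => hv P hP c (Tr.mono h hD hx hc)

theorem tt_piece {D : Finset (Fin n)} {x : Fin n → Bool} {F : Fm (Fin n)} {b : Bool} (hF : Pc k F) :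
    TT Con thr k D x F b ↔ Tr Con thr D x F b false := by
  constructor
  · intro hl
    by_contra hn
    have h1 := hl (fun _ => !b) (by
      intro P hP c hc
      rw [ps_piece hF, mem_singleton] at hP
      rw [hP] at hc
      by_contra hne
      have hcb : c = b := by
        cases b <;> cases c <;> simp_all
      rw [hcb] at hc
      exact hn hc)
    rw [evp_piece hF] at h1
    cases b <;> exact Bool.noConfusion h1
  · intro ht v hv
    rw [evp_piece hF]
    exact hv F (by rw [ps_piece hF]; exact mem_singleton_self _) b ht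

theorem tt_neg {D : Finset (Fin n)} {x : Fin n → Bool} {A : Fm (Fin n)} {b : Bool} :
    TT Con thr k D x (.neg A) b ↔ TT Con thr k D x A (!b) := by
  by_cases hp : Pc k (Fm.neg A)
  · rw [tt_piece hp, tt_piece (pc_neg.1 hp)]
    exact Iff.rfl
  · unfold TT
    rw [ps_neg hp]
    refine forall_congr' fun v => imp_congr_right fun _ => ?_
    rw [evp_neg hp]
    cases evp k v A <;> cases b <;> simp

theorem tt_nb (h : Wld Con K) (hmono : Monotone thr) (h0 : 2 ≤ thr 0) {D : Finset (Fin n)}
    {x : Fin n → Bool} {F : Fm (Fin n)} (hD : D.card + thr k ≤ K) (hc : Con D x)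
    (h1 : TT Con thr k D x F true) (h2 : TT Con thr k D x F false) : False := by
  have hT : ∀ l ≤ k, thr l ≤ thr k := fun l hl => hmono hl
  have hT1 : 1 ≤ thr k := by
    have := hmono (Nat.zero_le k)
    omega
  have hv : ∀ P ∈ ps k F, ∀ c, Tr Con thr D x P c false → decide (Tr Con thr D x P true false) = c := by
    intro P hP c hc'
    cases c with
    | true => exact decide_eq_true hc'
    | false =>
      refine decide_eq_false fun ht => ?_
      obtain ⟨hp1, hp2⟩ := ps_pc P hP
      exact tr_not_both h hT hT1 hp1 hp2 hD hc ht hc'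
  have g1 := h1 (fun P => decide (Tr Con thr D x P true false)) hv
  have g2 := h2 (fun P => decide (Tr Con thr D x P true false)) hv
  rw [g1] at g2
  exact Bool.noConfusion g2

theorem tt_imp (h : Wld Con K) (hmono : Monotone thr) {D : Finset (Fin n)}
    {x : Fin n → Bool} {A B : Fm (Fin n)} {a b : Bool} (hD : D.card + thr k ≤ K) (hc : Con D x)
    (h1 : TT Con thr k D x A a) (h2 : TT Con thr k D x B b) :
    ∃ D' y, D ⊆ D' ∧ D'.card ≤ D.card + thr k ∧ (∀ v ∈ D, y v = x v) ∧ Con D' y ∧
      TT Con thr k D' y (.imp A B) (!a || b) := by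
  have hT : ∀ l ≤ k, thr l ≤ thr k := fun l hl => hmono hl
  by_cases hp : Pc k (Fm.imp A B)
  · obtain ⟨D', y, g1, g2, g3, g4, g5⟩ := tr_imp h hT hp.1 hD hc ((tt_piece (pc_imp hp).1).1 h1)
      ((tt_piece (pc_imp hp).2).1 h2)
    exact ⟨D', y, g1, g2, g3, g4, (tt_piece hp).2 g5⟩
  · refine ⟨D, x, Subset.refl _, Nat.le_add_right _ _, fun _ _ => rfl, hc, ?_⟩
    intro v hv
    rw [ps_imp hp] at hv
    rw [evp_imp hp, h1 v fun P hP => hv P (mem_union_left _ hP), h2 v fun P hP => hv P (mem_union_right _ hP)]

theorem tt_dec (h : Wld Con K) (hmono : Monotone thr) (h0 : 2 ≤ thr 0) (hk : k < thr 0) {θ : ℝ}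
    (hθ : ∑ i ∈ range k, (thr i : ℝ) / (Nat.log 2 (thr (i + 1)) : ℝ) ^ 2 ≤ θ) (hθ0 : 0 ≤ θ) {M W kd : ℕ}
    (hkd : θ * W + M * thr k ≤ kd) {F : Fm (Fin n)} (hF : Few k M W F) {D : Finset (Fin n)}
    {x : Fin n → Bool} (hD : D.card + kd ≤ K) (hc : Con D x) :
    ∃ D' y, D ⊆ D' ∧ D'.card ≤ D.card + kd ∧ (∀ v ∈ D, y v = x v) ∧ Con D' y ∧
      (TT Con thr k D' y F true ∨ TT Con thr k D' y F false) := by
  have key : ∀ S : Finset (Fm (Fin n)), S ⊆ ps k F → ∃ (D' : Finset (Fin n)) (y : Fin n → Bool)
      (v : Fm (Fin n) → Bool), D ⊆ D' ∧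
      (D'.card : ℝ) ≤ D.card + θ * (∑ P ∈ S, max (wb k P true) (wb k P false) : ℕ) + S.card * thr k ∧
      (∀ w ∈ D, y w = x w) ∧ Con D' y ∧ ∀ P ∈ S, Tr Con thr D' y P (v P) false := by
    intro S
    induction S using Finset.induction_on with
    | empty =>
      intro _
      exact ⟨D, x, fun _ => true, Subset.refl _, by simp, fun _ _ => rfl, hc, by simp⟩
    | insert P S hPS ih =>
      intro hS
      obtain ⟨D', y, v, g1, g2, g3, g4, g5⟩ := ih ((subset_insert P S).trans hS)
      have hPF : P ∈ ps k F := hS (mem_insert_self P S)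
      obtain ⟨hp1, hp2⟩ := ps_pc P hPF
      have e1 : (∑ Q ∈ insert P S, max (wb k Q true) (wb k Q false)) =
          max (wb k P true) (wb k P false) + ∑ Q ∈ S, max (wb k Q true) (wb k Q false) := sum_insert hPS
      have e2 : (insert P S).card = S.card + 1 := card_insert_of_notMem hPS
      have e3 : (∑ Q ∈ insert P S, max (wb k Q true) (wb k Q false)) ≤ W :=
        (sum_le_sum_of_subset hS).trans hF.2
      have e4 : (insert P S).card ≤ M := (card_le_card hS).trans hF.1
      have e5 : θ * ((∑ Q ∈ insert P S, max (wb k Q true) (wb k Q false) : ℕ) : ℝ) ≤ θ * W :=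
        mul_le_mul_of_nonneg_left (by exact_mod_cast e3) hθ0
      have e6 : (((insert P S).card : ℕ) : ℝ) * thr k ≤ M * thr k :=
        mul_le_mul_of_nonneg_right (by exact_mod_cast e4) (Nat.cast_nonneg _)
      have hD' : (D.card : ℝ) + kd ≤ K := by exact_mod_cast hD
      rw [e1] at e5
      rw [e2] at e6
      rw [Nat.cast_add, mul_add] at e5
      rw [Nat.cast_add, Nat.cast_one, add_mul, one_mul] at e6
      obtain ⟨D'', z, k1, k2, k3, k4, k5⟩ := decw h hmono h0 hk hθ hp1 hp2 (D := D') (x := y) (by linarith) g4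
      obtain ⟨b, hb⟩ : ∃ b : Bool, Tr Con thr D'' z P b false := by
        rcases k5 with k5 | k5
        · exact ⟨true, k5⟩
        · exact ⟨false, k5⟩
      refine ⟨D'', z, fun Q => if Q = P then b else v Q, g1.trans k1, ?_, ?_, k4, ?_⟩
      · rw [e1, e2, Nat.cast_add, Nat.cast_add, mul_add, Nat.cast_one, add_mul, one_mul]
        linarith
      · intro w hw
        rw [k3 w (g1 hw), g3 w hw]
      · intro Q hQ
        show Tr Con thr D'' z Q (if Q = P then b else v Q) false
        split_ifs with hQP
        · rw [hQP]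
          exact hb
        · have hQS : Q ∈ S := by
            rcases mem_insert.1 hQ with h1 | h1
            · exact absurd h1 hQP
            · exact h1
          exact Tr.mono h k1 k3 (g5 Q hQS)
  obtain ⟨D', y, v, g1, g2, g3, g4, g5⟩ := key (ps k F) (Subset.refl _)
  refine ⟨D', y, g1, ?_, g3, g4, ?_⟩
  · have e3 : θ * ((∑ Q ∈ ps k F, max (wb k Q true) (wb k Q false) : ℕ) : ℝ) ≤ θ * W :=
      mul_le_mul_of_nonneg_left (by exact_mod_cast hF.2) hθ0
    have e4 : (((ps k F).card : ℕ) : ℝ) * thr k ≤ M * thr k :=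
      mul_le_mul_of_nonneg_right (by exact_mod_cast hF.1) (Nat.cast_nonneg _)
    have e5 : (D'.card : ℝ) ≤ D.card + kd := by linarith
    exact_mod_cast e5
  · have hT : TT Con thr k D' y F (evp k v F) := by
      intro v' hv'
      exact evp_congr fun P hP => hv' P hP (v P) (g5 P hP)
    cases hb : evp k v F with
    | true =>
      rw [hb] at hT
      exact Or.inl hT
    | false =>
      rw [hb] at hT
      exact Or.inr hT

end Pool.H6.LD
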