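import Mathlib
import Pool.Agent.H6.LE.TopA

set_option autoImplicit false
set_option linter.unusedSectionVars false

/-!
# Module TOPB (THEOREM LE): instances of sound schemes, modus ponens, hypotheses of bounded size

Compare `Pool/Agent/H6/LD/Axm.lean` (same structure, with `Tr` instead of `TT`). PROOFS.
* `tt_ax`: suppose `TT D x (ψ.bind σ) false`. Decide `σ i` for the (at most `ψ.leaves ≤ ψ.len ≤ k0`) variables `i ∈ fv ψ` one after the other with `tt_dec` (`few_bind`), cost at most `k0 * kd`. Then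
  by structural induction on the subformulas `χ` of `ψ` extend by at most `χ.len * thr k` variables to a state with `TT (χ.bind σ) (χ.eval v)`: variable: `tt_mono`; `neg`: `tt_neg`; `imp`: first `A`, then `B`, then `tt_imp` and `tt_mono`.
  For `χ = ψ` the value is `true`: contradiction to `tt_nb` (needs `thr k` more variables). Total: `k0 * kd + k0 * thr k + thr k ≤ 3 * k0 * kd`.
* `tt_mp`: `tt_dec` for `A`; if `A` is false, done; if `A` is true then `tt_imp` with `a = true`, `b = false` (`tt_mono` for `B`).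
* `tt_cl`: extend `(D, x)` to `(D ∪ fv F, y)` (`Wld.extS`, `fv_card`). `TT D x F false` stays (`tt_mono`). Take `v P := P.eval y`: if `Tr (D ∪ fv F) y P c false` then `P.eval y = c` (`Tr.lt` applied to `y`; `D ∪ fv F ∪ fv P = D ∪ fv F` by `ps_fv`).
  So `evp k v F = false`, but `evp k v F = F.eval y = true` (`evp_eval`, `hF` with `Wld.mono`).
-/

namespace Pool.H6.LD

open Finset Classical Pool.Agent.H3.Frg Pool.Agent.H3.Frg2 Pool.Agent.H3.Frg4 Pool.Agent.H55.QT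

variable {n K k : ℕ} {Con : Finset (Fin n) → (Fin n → Bool) → Prop} {thr : ℕ → ℕ}

private theorem len_leaves {V : Type} (F : Fm V) : F.leaves ≤ F.len := by
  induction F with
  | var v => exact le_rfl
  | neg A ih => exact ih.trans (Nat.le_succ _)
  | imp A B ihA ihB =>
    show A.leaves + B.leaves ≤ A.len + B.len + 1
    omega

private theorem tt_mv (h : Wld Con K) (hmono : Monotone thr) (h0 : 2 ≤ thr 0) (hk : k < thr 0) {θ : ℝ}
    (hθ : ∑ i ∈ range k, (thr i : ℝ) / (Nat.log 2 (thr (i + 1)) : ℝ) ^ 2 ≤ θ) (hθ0 : 0 ≤ θ) {M W kd : ℕ}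
    (hkd : θ * W + M * thr k ≤ kd) {σ : ℕ → Fm (Fin n)} (S : Finset ℕ) (hS : ∀ i ∈ S, Few k M W (σ i))
    {D : Finset (Fin n)} {x : Fin n → Bool} (hD : D.card + S.card * kd ≤ K) (hc : Con D x) :
    ∃ D' y, ∃ v : ℕ → Bool, D ⊆ D' ∧ D'.card ≤ D.card + S.card * kd ∧ (∀ w ∈ D, y w = x w) ∧ Con D' y ∧
      ∀ i ∈ S, TT Con thr k D' y (σ i) (v i) := by
  induction S using Finset.induction_on with
  | empty =>
    refine ⟨D, x, fun _ => true, Subset.refl _, by simp, fun _ _ => rfl, hc, fun i hi => ?_⟩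
    simp at hi
  | insert a S ha ih =>
    rw [card_insert_of_notMem ha] at hD ⊢
    rw [Nat.add_mul, Nat.one_mul] at hD ⊢
    obtain ⟨D₁, y₁, v₁, h1, h2, h3, h4, h5⟩ := ih (fun i hi => hS i (mem_insert_of_mem hi)) (by omega)
    have hq := hS a (mem_insert_self a S)
    obtain ⟨D₂, y₂, g1, g2, g3, g4, g5⟩ := tt_dec h hmono h0 hk hθ hθ0 hkd hq (D := D₁) (x := y₁)
      (by omega) h4
    obtain ⟨b, hb⟩ : ∃ b, TT Con thr k D₂ y₂ (σ a) b := by
      rcases g5 with g5 | g5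
      · exact ⟨true, g5⟩
      · exact ⟨false, g5⟩
    refine ⟨D₂, y₂, Function.update v₁ a b, h1.trans g1, by omega,
      fun w hw => (g3 w (h1 hw)).trans (h3 w hw), g4, fun i hi => ?_⟩
    rcases mem_insert.1 hi with rfl | hi
    · rw [Function.update_self]
      exact hb
    · have hne : i ≠ a := fun h6 => ha (h6 ▸ hi)
      rw [Function.update_of_ne hne]
      exact tt_mono h g1 g3 (h5 i hi)

private theorem tt_chi (h : Wld Con K) (hmono : Monotone thr)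
    {σ : ℕ → Fm (Fin n)} {v : ℕ → Bool} (χ : Fm ℕ) :
    ∀ (D : Finset (Fin n)) (x : Fin n → Bool), (∀ i ∈ fv χ, TT Con thr k D x (σ i) (v i)) →
      D.card + χ.len * thr k ≤ K → Con D x →
      ∃ D' y, D ⊆ D' ∧ D'.card ≤ D.card + χ.len * thr k ∧ (∀ w ∈ D, y w = x w) ∧ Con D' y ∧
        TT Con thr k D' y (χ.bind σ) (χ.eval v) := by
  induction χ with
  | var i =>
    intro D x hv hD hc
    refine ⟨D, x, Subset.refl _, Nat.le_add_right _ _, fun _ _ => rfl, hc, ?_⟩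
    exact hv i (by show i ∈ ({i} : Finset ℕ); exact mem_singleton_self i)
  | neg A ih =>
    intro D x hv hD hc
    have e1 : (Fm.neg A).len = A.len + 1 := rfl
    rw [e1, Nat.add_mul] at hD
    obtain ⟨D', y, h1, h2, h3, h4, h5⟩ := ih D x hv (by omega) hc
    refine ⟨D', y, h1, ?_, h3, h4, ?_⟩
    · rw [e1, Nat.add_mul]
      omega
    · show TT Con thr k D' y (.neg (A.bind σ)) (!(A.eval v))
      rw [tt_neg, Bool.not_not]
      exact h5
  | imp A B ihA ihB =>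
    intro D x hv hD hc
    have e1 : (Fm.imp A B).len = A.len + B.len + 1 := rfl
    rw [e1, Nat.add_mul, Nat.add_mul, Nat.one_mul] at hD
    have hfA : ∀ i ∈ fv A, i ∈ fv (Fm.imp A B) := fun i hi => mem_fv_imp.2 (Or.inl hi)
    have hfB : ∀ i ∈ fv B, i ∈ fv (Fm.imp A B) := fun i hi => mem_fv_imp.2 (Or.inr hi)
    obtain ⟨D₁, y₁, h1, h2, h3, h4, h5⟩ := ihA D x (fun i hi => hv i (hfA i hi)) (by omega) hc
    obtain ⟨D₂, y₂, g1, g2, g3, g4, g5⟩ := ihB D₁ y₁ (fun i hi => tt_mono h h1 h3 (hv i (hfB i hi)))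
      (by omega) h4
    obtain ⟨D₃, y₃, k1, k2, k3, k4, k5⟩ := tt_imp h hmono (by omega) g4 (tt_mono h g1 g3 h5) g5
    refine ⟨D₃, y₃, (h1.trans g1).trans k1, ?_, fun w hw => ?_, k4, k5⟩
    · rw [e1, Nat.add_mul, Nat.add_mul, Nat.one_mul]
      omega
    · rw [k3 w (g1 (h1 hw)), g3 w (h1 hw), h3 w hw]

theorem tt_ax (h : Wld Con K) (hmono : Monotone thr) (h0 : 2 ≤ thr 0) (hk : k < thr 0) {θ : ℝ}
    (hθ : ∑ i ∈ range k, (thr i : ℝ) / (Nat.log 2 (thr (i + 1)) : ℝ) ^ 2 ≤ θ) (hθ0 : 0 ≤ θ) {M W kd : ℕ}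
    (hkd : θ * W + M * thr k ≤ kd) (hT : thr k ≤ kd) {ψ : Fm ℕ} {k0 : ℕ} (hk0 : ψ.len ≤ k0)
    (hψ : ∀ x : ℕ → Bool, ψ.eval x = true) {σ : ℕ → Fm (Fin n)} (hF : Few k M W (ψ.bind σ))
    {D : Finset (Fin n)} {x : Fin n → Bool} (hD : D.card + 3 * k0 * kd ≤ K) (hc : Con D x) :
    ¬ TT Con thr k D x (ψ.bind σ) false := by
  intro hfalse
  have hcard : (fv ψ).card ≤ k0 := ((fv_card ψ).trans (len_leaves ψ)).trans hk0
  have hk01 : 1 ≤ k0 := ((leaves_pos ψ).trans (len_leaves ψ)).trans hk0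
  have c1 : (fv ψ).card * kd ≤ k0 * kd := Nat.mul_le_mul_right _ hcard
  have c2 : ψ.len * thr k ≤ k0 * kd := Nat.mul_le_mul hk0 hT
  have c3 : thr k ≤ k0 * kd := hT.trans (Nat.le_mul_of_pos_left _ hk01)
  have c4 : 3 * k0 * kd = k0 * kd + k0 * kd + k0 * kd := by ring
  obtain ⟨D₁, y₁, v, h1, h2, h3, h4, h5⟩ := tt_mv h hmono h0 hk hθ hθ0 hkd (σ := σ) (fv ψ)
    (few_bind ψ hF) (D := D) (x := x) (by omega) hc
  obtain ⟨D₂, y₂, g1, g2, g3, g4, g5⟩ := tt_chi h hmono (v := v) ψ D₁ y₁ h5 (by omega) h4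
  rw [hψ v] at g5
  have g6 : TT Con thr k D₂ y₂ (ψ.bind σ) false :=
    tt_mono h (h1.trans g1) (fun w hw => (g3 w (h1 hw)).trans (h3 w hw)) hfalse
  exact tt_nb h hmono h0 (by omega) g4 g5 g6

theorem tt_mp (h : Wld Con K) (hmono : Monotone thr) (h0 : 2 ≤ thr 0) (hk : k < thr 0) {θ : ℝ}
    (hθ : ∑ i ∈ range k, (thr i : ℝ) / (Nat.log 2 (thr (i + 1)) : ℝ) ^ 2 ≤ θ) (hθ0 : 0 ≤ θ) {M W kd : ℕ}
    (hkd : θ * W + M * thr k ≤ kd) {A B : Fm (Fin n)} (hF : Few k M W A) {D : Finset (Fin n)}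
    {x : Fin n → Bool} (hD : D.card + (kd + thr k) ≤ K) (hc : Con D x) (hB : TT Con thr k D x B false) :
    ∃ D' y, D ⊆ D' ∧ D'.card ≤ D.card + (kd + thr k) ∧ (∀ v ∈ D, y v = x v) ∧ Con D' y ∧
      (TT Con thr k D' y A false ∨ TT Con thr k D' y (.imp A B) false) := by
  obtain ⟨D₁, y₁, h1, h2, h3, h4, h5⟩ := tt_dec h hmono h0 hk hθ hθ0 hkd hF (D := D) (x := x)
    (by omega) hc
  rcases h5 with h5 | h5
  · obtain ⟨D₂, y₂, g1, g2, g3, g4, g5⟩ := tt_imp h hmono (by omega) h4 h5 (tt_mono h h1 h3 hB)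
    exact ⟨D₂, y₂, h1.trans g1, by omega, fun v hv => (g3 v (h1 hv)).trans (h3 v hv), g4, Or.inr g5⟩
  · exact ⟨D₁, y₁, h1, by omega, h3, h4, Or.inl h5⟩

theorem tt_cl (h : Wld Con K) {F : Fm (Fin n)} {D : Finset (Fin n)} {x : Fin n → Bool}
    (hF : ∀ y, Con (fv F) y → F.eval y = true) (hD : D.card + F.leaves ≤ K) (hc : Con D x) :
    ¬ TT Con thr k D x F false := by
  intro h1
  have h2 : (D ∪ fv F).card ≤ K := by
    have h3 := card_union_le D (fv F)
    have h4 := fv_card F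
    omega
  obtain ⟨y, hy1, hy2⟩ := h.extS h2 hc
  have h3 : TT Con thr k (D ∪ fv F) y F false := tt_mono h subset_union_left hy1 h1
  have h4 := h3 (fun P => P.eval y) (fun P hP c hc => by
    refine Tr.lt h hc y (fun _ _ => rfl) ?_
    have h5 : D ∪ fv F ∪ fv P = D ∪ fv F :=
      union_eq_left.2 ((ps_fv P hP).trans subset_union_right)
    rw [h5]
    exact hy2)
  rw [evp_eval, hF y (h.mono _ _ _ subset_union_right hy2)] at h4
  exact Bool.noConfusion h4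

end Pool.H6.LD
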