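import Mathlib
import Pool.Agent.H55.QT.RExp

set_option autoImplicit false
set_option linter.unusedSectionVars false

/-!
# Module EXQ (THEOREM LE): random 3-CNFs expand with probability tending to 1

`c := 1 / (2 * Cx Δ)` (and `c ≤ 1 / 2`). PROOF. As in `Pool/Agent/H55/QT/RExp.lean` (`card_nexp`; copy its private parts): with `r = ⌊c n⌋₊` (`2 r ≤ n`) the number of `φ` with `¬ Exp13 r φ` is at most `∑ i ∈ Icc 1 r, (Cx Δ * i / n) ^ ((3 i + 7) / 8) * total`. Here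
`Cx Δ * i / n ≤ 1 / 2` for `i ≤ r`. Split at `i ≤ √n`: there `Cx Δ * i / n ≤ Cx Δ / √n =: q`, and `q ≤ 1 / 2` for large `n`: the sum of these terms is at most `6 q` (`sum_geo`, as in `card_nexp`). For `i > √n`: at most
`(1 / 2) ^ ((3 i + 7) / 8) ≤ (1 / 2) ^ (i / 4)`, at most `n` terms, each at most `(1 / 2) ^ (√n / 4)` up to a constant factor. Both parts tend to `0`.
-/

namespace Pool.H6.LD

open Finset Classical Pool.Agent.H55.QT

/-- the number of points -/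
private def uu (i : ℕ) : ℕ := (13 * i - 1) / 8

private theorem bad_sub {Δ n r : ℕ} (hr : 2 * r ≤ n) :
    (univ.filter fun φ : Fin (Δ * n) → Cl n => ¬ Exp13 r φ) ⊆
      (Finset.Icc 1 r).biUnion fun i => (powersetCard i (univ : Finset (Fin (Δ * n)))).biUnion fun I =>
        (powersetCard (uu i) (univ : Finset (Fin n))).biUnion fun A =>
          univ.filter fun φ : Fin (Δ * n) → Cl n => ∀ j ∈ I, cvar (φ j) ⊆ A := by
  intro φ hφ
  rw [Finset.mem_filter] at hφ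
  have h1 := hφ.2
  unfold Exp13 at h1
  push Not at h1
  obtain ⟨I, hI, h2⟩ := h1
  have hpos : 1 ≤ I.card := by omega
  have hA : (I.biUnion fun j => cvar (φ j)).card ≤ uu I.card := by
    unfold uu
    omega
  have hn : uu I.card ≤ Fintype.card (Fin n) := by
    rw [Fintype.card_fin]
    unfold uu
    omega
  obtain ⟨A, hA1, hA2⟩ := Finset.exists_superset_card_eq hA hn
  simp only [Finset.mem_biUnion, Finset.mem_Icc, Finset.mem_powersetCard, Finset.mem_filter,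
    Finset.mem_univ, true_and]
  refine ⟨I.card, ⟨hpos, hI⟩, I, ⟨Finset.subset_univ _, rfl⟩, A, ⟨Finset.subset_univ _, hA2⟩, ?_⟩
  intro j hj
  exact (Finset.subset_biUnion_of_mem (fun j => cvar (φ j)) hj).trans hA1

private theorem cov_real {n m : ℕ} (hn : 0 < n) (A : Finset (Fin n)) (I : Finset (Fin m)) :
    ((univ.filter fun φ : Fin m → Cl n => ∀ j ∈ I, cvar (φ j) ⊆ A).card : ℝ) ≤
      ((A.card : ℝ) / n) ^ (3 * I.card) * Fintype.card (Fin m → Cl n) := by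
  have h1 : ((univ.filter fun φ : Fin m → Cl n => ∀ j ∈ I, cvar (φ j) ⊆ A).card : ℝ) *
      (n : ℝ) ^ (3 * I.card) ≤ (A.card : ℝ) ^ (3 * I.card) * Fintype.card (Fin m → Cl n) := by
    exact_mod_cast card_cov A I
  have hn' : (0 : ℝ) < (n : ℝ) ^ (3 * I.card) := by positivity
  rw [div_pow, div_mul_eq_mul_div, le_div_iff₀ hn']
  exact h1

/-- the first moment -/
private theorem exq_sum {Δ n r : ℕ} (hΔ : 1 ≤ Δ) (hr : 2 * r ≤ n) (hn : 0 < n) :
    ((univ.filter fun φ : Fin (Δ * n) → Cl n => ¬ Exp13 r φ).card : ℝ) ≤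
      (∑ i ∈ Finset.Icc 1 r, (Cx Δ * i / n) ^ ((3 * i + 7) / 8)) * Fintype.card (Fin (Δ * n) → Cl n) := by
  set tot : ℝ := (Fintype.card (Fin (Δ * n) → Cl n) : ℝ) with htot
  have htot0 : 0 ≤ tot := Nat.cast_nonneg _
  have h1 : ((univ.filter fun φ : Fin (Δ * n) → Cl n => ¬ Exp13 r φ).card : ℝ) ≤
      ∑ i ∈ Finset.Icc 1 r, ∑ I ∈ powersetCard i (univ : Finset (Fin (Δ * n))),
        ∑ A ∈ powersetCard (uu i) (univ : Finset (Fin n)),
          ((univ.filter fun φ : Fin (Δ * n) → Cl n => ∀ j ∈ I, cvar (φ j) ⊆ A).card : ℝ) := by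
    have h2 : (univ.filter fun φ : Fin (Δ * n) → Cl n => ¬ Exp13 r φ).card ≤
        ∑ i ∈ Finset.Icc 1 r, ∑ I ∈ powersetCard i (univ : Finset (Fin (Δ * n))),
          ∑ A ∈ powersetCard (uu i) (univ : Finset (Fin n)),
            (univ.filter fun φ : Fin (Δ * n) → Cl n => ∀ j ∈ I, cvar (φ j) ⊆ A).card := by
      refine (Finset.card_le_card (bad_sub hr)).trans ?_
      refine Finset.card_biUnion_le.trans ?_
      refine Finset.sum_le_sum fun i _ => ?_
      refine Finset.card_biUnion_le.trans ?_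
      refine Finset.sum_le_sum fun I _ => ?_
      exact Finset.card_biUnion_le
    exact_mod_cast h2
  refine h1.trans ?_
  rw [Finset.sum_mul]
  refine Finset.sum_le_sum fun i hi => ?_
  rw [Finset.mem_Icc] at hi
  have h4 : (∑ I ∈ powersetCard i (univ : Finset (Fin (Δ * n))),
      ∑ A ∈ powersetCard (uu i) (univ : Finset (Fin n)),
        ((univ.filter fun φ : Fin (Δ * n) → Cl n => ∀ j ∈ I, cvar (φ j) ⊆ A).card : ℝ)) ≤
      ∑ _I ∈ powersetCard i (univ : Finset (Fin (Δ * n))),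
        ∑ _A ∈ powersetCard (uu i) (univ : Finset (Fin n)), ((uu i : ℝ) / n) ^ (3 * i) * tot := by
    refine Finset.sum_le_sum fun I hI => Finset.sum_le_sum fun A hA => ?_
    rw [Finset.mem_powersetCard] at hI hA
    have h5 := cov_real hn A I
    rwa [hI.2, hA.2] at h5
  refine h4.trans ?_
  rw [Finset.sum_const, Finset.sum_const, Finset.card_powersetCard, Finset.card_powersetCard,
    Finset.card_univ, Finset.card_univ, Fintype.card_fin, Fintype.card_fin, nsmul_eq_mul,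
    nsmul_eq_mul]
  have hu : 8 * uu i < 13 * i := by
    unfold uu
    omega
  have h5 := rbin (n := n) hΔ hi.1 (by omega) hu
  calc ((Δ * n).choose i : ℝ) * ((n.choose (uu i) : ℝ) * (((uu i : ℝ) / n) ^ (3 * i) * tot))
      = (((Δ * n).choose i : ℝ) * (n.choose (uu i) : ℝ) * ((uu i : ℝ) / n) ^ (3 * i)) * tot := by
        ring
    _ ≤ (Cx Δ * i / n) ^ ((3 * i + 7) / 8) * tot :=
        mul_le_mul_of_nonneg_right h5 htot0

/-- the terms with `i ≤ 8 L` and the other terms -/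
private theorem exq_split {C : ℝ} (hC : 0 ≤ C) {n r L : ℕ} (hn : 0 < n) (hr : C * r / n ≤ 1 / 2)
    (hL : C * (8 * L : ℕ) / n ≤ 1 / 2) :
    ∑ i ∈ Finset.Icc 1 r, (C * i / n) ^ ((3 * i + 7) / 8) ≤ 6 * (C * (8 * L : ℕ) / n) + 3 * (1 / 8) ^ L := by
  have hn' : (0 : ℝ) < n := by exact_mod_cast hn
  rw [← Finset.sum_filter_add_sum_filter_not (Finset.Icc 1 r) (fun i => i ≤ 8 * L)]
  refine add_le_add ?_ ?_
  · refine le_trans ?_ (sum_geo (by positivity) hL (8 * L))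
    have h1 : ∑ i ∈ (Finset.Icc 1 r).filter (fun i => i ≤ 8 * L), (C * i / n) ^ ((3 * i + 7) / 8) ≤
        ∑ i ∈ (Finset.Icc 1 r).filter (fun i => i ≤ 8 * L), (C * (8 * L : ℕ) / n) ^ ((3 * i + 7) / 8) := by
      refine Finset.sum_le_sum fun i hi => ?_
      rw [Finset.mem_filter] at hi
      have h7 : (i : ℝ) ≤ (8 * L : ℕ) := by exact_mod_cast hi.2
      have h8 : C * i / n ≤ C * (8 * L : ℕ) / n :=
        div_le_div_of_nonneg_right (mul_le_mul_of_nonneg_left h7 hC) hn'.le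
      exact pow_le_pow_left₀ (by positivity) h8 _
    refine h1.trans ?_
    refine Finset.sum_le_sum_of_subset_of_nonneg ?_ fun i _ _ => by positivity
    intro i hi
    rw [Finset.mem_filter, Finset.mem_Icc] at hi
    exact Finset.mem_Icc.2 ⟨hi.1.1, hi.2⟩
  · have h1 : ∑ i ∈ (Finset.Icc 1 r).filter (fun i => ¬ i ≤ 8 * L), (C * i / n) ^ ((3 * i + 7) / 8) ≤
        ∑ i ∈ (Finset.Icc 1 r).filter (fun i => ¬ i ≤ 8 * L), (1 / 2 : ℝ) ^ ((3 * i + 7) / 8) := by
      refine Finset.sum_le_sum fun i hi => ?_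
      rw [Finset.mem_filter, Finset.mem_Icc] at hi
      have h7 : (i : ℝ) ≤ r := by exact_mod_cast hi.1.2
      have h8 : C * i / n ≤ C * r / n :=
        div_le_div_of_nonneg_right (mul_le_mul_of_nonneg_left h7 hC) hn'.le
      exact pow_le_pow_left₀ (by positivity) (h8.trans hr) _
    refine h1.trans ?_
    have h2 : (Finset.Icc 1 r).filter (fun i => ¬ i ≤ 8 * L) ⊆ (Finset.Icc 1 r).map (addLeftEmbedding (8 * L)) := by
      intro i hi
      rw [Finset.mem_filter, Finset.mem_Icc] at hi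
      rw [Finset.mem_map]
      refine ⟨i - 8 * L, Finset.mem_Icc.2 ⟨by omega, by omega⟩, ?_⟩
      rw [addLeftEmbedding_apply]
      omega
    refine (Finset.sum_le_sum_of_subset_of_nonneg h2 fun i _ _ => by positivity).trans ?_
    rw [Finset.sum_map]
    have h3 : ∀ i ∈ Finset.Icc 1 r, (1 / 2 : ℝ) ^ ((3 * (addLeftEmbedding (8 * L) i) + 7) / 8) =
        (1 / 8) ^ L * (1 / 2 : ℝ) ^ ((3 * i + 7) / 8) := by
      intro i _
      rw [addLeftEmbedding_apply]
      have e : (3 * (8 * L + i) + 7) / 8 = 3 * L + (3 * i + 7) / 8 := by omega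
      rw [e, pow_add, pow_mul]
      norm_num
    rw [Finset.sum_congr rfl h3, ← Finset.mul_sum]
    have h4 := sum_geo (q := (1 / 2 : ℝ)) (by norm_num) le_rfl r
    have h5 : (0 : ℝ) ≤ (1 / 8) ^ L := by positivity
    nlinarith

theorem exq {Δ : ℕ} (hΔ : 1 ≤ Δ) : ∃ c : ℝ, 0 < c ∧ c ≤ 1 / 2 ∧ ∀ e : ℝ, 0 < e → ∃ n0 : ℕ, ∀ n : ℕ, n0 ≤ n →
    ((univ.filter fun φ : Fin (Δ * n) → Cl n => ¬ Exp13 ⌊c * n⌋₊ φ).card : ℝ) ≤
      e * Fintype.card (Fin (Δ * n) → Cl n) := by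
  have hCx : 0 < Cx Δ := by
    unfold Cx
    positivity
  refine ⟨min (1 / 2) (1 / (2 * Cx Δ)), by positivity, min_le_left _ _, fun e he => ?_⟩
  set c : ℝ := min (1 / 2) (1 / (2 * Cx Δ)) with hc
  have hc0 : 0 < c := by positivity
  obtain ⟨L, hL⟩ := exists_pow_lt_of_lt_one (show (0 : ℝ) < e / 6 by positivity) (show (1 / 8 : ℝ) < 1 by norm_num)
  obtain ⟨n1, hn1⟩ := exists_nat_ge (max (2 * (Cx Δ * (8 * L : ℕ))) (12 * (Cx Δ * (8 * L : ℕ)) / e))
  refine ⟨n1 + 1, fun n hn => ?_⟩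
  have hn0 : 0 < n := by omega
  have hn' : (0 : ℝ) < n := by exact_mod_cast hn0
  have hn2 : (n1 : ℝ) ≤ n := by exact_mod_cast (by omega : n1 ≤ n)
  have h1 : 2 * (Cx Δ * (8 * L : ℕ)) ≤ n := (le_max_left _ _).trans (hn1.trans hn2)
  have h2 : 12 * (Cx Δ * (8 * L : ℕ)) / e ≤ n := (le_max_right _ _).trans (hn1.trans hn2)
  have hfl : ((⌊c * n⌋₊ : ℕ) : ℝ) ≤ c * n := Nat.floor_le (by positivity)
  have hr2 : 2 * ⌊c * n⌋₊ ≤ n := by
    have h3 : c * n ≤ 1 / 2 * n := mul_le_mul_of_nonneg_right (min_le_left _ _) hn'.le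
    have h4 : (2 * ⌊c * n⌋₊ : ℝ) ≤ n := by linarith
    exact_mod_cast h4
  have hrC : Cx Δ * (⌊c * n⌋₊ : ℕ) / n ≤ 1 / 2 := by
    rw [div_le_iff₀ hn']
    have h3 : c * n ≤ 1 / (2 * Cx Δ) * n := mul_le_mul_of_nonneg_right (min_le_right _ _) hn'.le
    calc Cx Δ * (⌊c * n⌋₊ : ℕ) ≤ Cx Δ * (1 / (2 * Cx Δ) * n) := mul_le_mul_of_nonneg_left (hfl.trans h3) hCx.le
      _ = 1 / 2 * n := by field_simp
  have hLC : Cx Δ * (8 * L : ℕ) / n ≤ 1 / 2 := by
    rw [div_le_iff₀ hn']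
    linarith
  refine (exq_sum hΔ hr2 hn0).trans ?_
  refine mul_le_mul_of_nonneg_right ?_ (Nat.cast_nonneg _)
  refine (exq_split hCx.le hn0 hrC hLC).trans ?_
  have h5 : 6 * (Cx Δ * (8 * L : ℕ) / n) ≤ e / 2 := by
    rw [div_le_iff₀ he] at h2
    rw [← mul_div_assoc, div_le_iff₀ hn']
    linarith
  linarith

end Pool.H6.LD
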