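import Mathlib
import Pool.Agent.H6.LD.Ind
import Pool.Agent.H6.LE.Defs

set_option autoImplicit false
set_option linter.unusedSectionVars false

/-!
# Module GRT (THEOREM LE): almost all balls are of bounded size

`nb B S = S ∪ ⋃ (B j meets S) B j`. PROOF. Let `deg v = #{j | ¬ Disjoint (B j) {v}}`, `Tch C B`: `#{j | B j meets S} ≤ C √(|S| n)`.
(1) For all `S`: `|nb B S| ≤ |S| + 3 C √(|S| n) ≤ (1 + 3 C) √(|S| n)` (`|S| ≤ n`, so `|S| ≤ √(|S| n)`).
(2) For all `R` and `ν > 0` there is `δ > 0` (depending on `C`, `R`, `ν` only) such that `|S| ≤ δ n` implies `|(nb B)^[R] S| ≤ ν n`: induction on `R` (`Function.iterate_succ_apply'`), `δ(0) = ν`, for `R + 1` use (1) and the assumption for `R` and `ν' = (ν / (1 + 3 C)) ^ 2`.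
(3) For `M ≥ 1` let `H = {v | M < deg v}`. `M |H| ≤ ∑ v ∈ H, deg v = ∑ j, |B j ∩ H| ≤ 3 * #{j | B j meets H} ≤ 3 C √(|H| n)`, so `M ^ 2 |H| ≤ 9 C ^ 2 n`; choose `M` with `9 C ^ 2 / M ^ 2 ≤ δ`.
(4) If `v ∉ (nb B)^[R] H` then for all `i ≤ R` no `w ∈ (nb B)^[i] {v}` is in `H` (`nb_symm`, `nb_union`, `nb_mono` in Ind), and `|nb B S| ≤ ∑ w ∈ S, |nb B {w}| ≤ |S| (1 + 3 M)` if `deg w ≤ M` on `S`; so `|(nb B)^[R] {v}| ≤ (1 + 3 M) ^ R =: Λ`. Hence the `v` with
`Λ < |(nb B)^[R] {v}|` are in `(nb B)^[R] H`, at most `ν n`.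
-/

namespace Pool.H6.LD

open Finset Classical Pool.Agent.H55.QT

section

variable {n m : ℕ} {B : Fin m → Finset (Fin n)}

private theorem grt_card (h3 : ∀ j, (B j).card ≤ 3) (S : Finset (Fin n)) :
    (nb B S).card ≤ S.card + 3 * (univ.filter fun j => ¬ Disjoint (B j) S).card := by
  unfold nb
  refine (Finset.card_union_le _ _).trans (Nat.add_le_add_left ?_ _)
  refine (Finset.card_biUnion_le_card_mul _ _ 3 fun j _ => h3 j).trans (le_of_eq (mul_comm _ _))

private theorem grt_sq {a : ℝ} {N : ℝ} (h0 : 0 ≤ a) (h : a ≤ N) : a ≤ Real.sqrt (a * N) := by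
  refine Real.le_sqrt_of_sq_le ?_
  nlinarith

private theorem grt_one {C : ℝ} (h3 : ∀ j, (B j).card ≤ 3) (hT : Tch C B) (S : Finset (Fin n)) :
    ((nb B S).card : ℝ) ≤ (1 + 3 * C) * Real.sqrt (S.card * n) := by
  have h1 : ((nb B S).card : ℝ) ≤ (S.card : ℝ) + 3 * ((univ.filter fun j => ¬ Disjoint (B j) S).card : ℝ) := by
    exact_mod_cast grt_card h3 S
  have h2 := hT S
  have h4 : (S.card : ℝ) ≤ n := by
    have := S.card_le_univ
    rw [Fintype.card_fin] at this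
    exact_mod_cast this
  have h5 := grt_sq (Nat.cast_nonneg S.card) h4
  linarith

private theorem grt_iter {C : ℝ} (hC : 0 ≤ C) (R : ℕ) : ∀ ν : ℝ, 0 < ν → ∃ δ : ℝ, 0 < δ ∧
    ∀ (n m : ℕ) (B : Fin m → Finset (Fin n)), (∀ j, (B j).card ≤ 3) → Tch C B → ∀ S : Finset (Fin n),
      (S.card : ℝ) ≤ δ * n → (((nb B)^[R] S).card : ℝ) ≤ ν * n := by
  induction R with
  | zero => exact fun ν hν => ⟨ν, hν, fun n m B _ _ S hS => hS⟩
  | succ R ih =>
    intro ν hν
    obtain ⟨δ, hδ, h⟩ := ih ((ν / (1 + 3 * C)) ^ 2) (by positivity)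
    refine ⟨δ, hδ, fun n m B h3 hT S hS => ?_⟩
    have h1 := h n m B h3 hT S hS
    rw [Function.iterate_succ_apply']
    refine (grt_one h3 hT _).trans ?_
    have hn : (0 : ℝ) ≤ n := Nat.cast_nonneg n
    have h2 : Real.sqrt ((((nb B)^[R] S).card : ℝ) * n) ≤ ν / (1 + 3 * C) * n := by
      rw [Real.sqrt_le_left (by positivity)]
      calc (((nb B)^[R] S).card : ℝ) * n ≤ ((ν / (1 + 3 * C)) ^ 2 * n) * n := mul_le_mul_of_nonneg_right h1 hn
        _ = (ν / (1 + 3 * C) * n) ^ 2 := by ring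
    calc (1 + 3 * C) * Real.sqrt ((((nb B)^[R] S).card : ℝ) * n) ≤ (1 + 3 * C) * (ν / (1 + 3 * C) * n) :=
          mul_le_mul_of_nonneg_left h2 (by positivity)
      _ = ν * n := by field_simp

/-- the vertices of degree more than `M` -/
private noncomputable def grt_H (B : Fin m → Finset (Fin n)) (M : ℕ) : Finset (Fin n) :=
  univ.filter fun v => M < (univ.filter fun j => v ∈ B j).card

private theorem grt_deg {C : ℝ} (hC : 0 ≤ C) (h3 : ∀ j, (B j).card ≤ 3) (hT : Tch C B) (M : ℕ) :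
    ((M : ℝ) ^ 2) * ((grt_H B M).card : ℝ) ≤ 9 * C ^ 2 * n := by
  obtain ⟨H, hH⟩ : ∃ H, H = grt_H B M := ⟨_, rfl⟩
  rw [← hH]
  have h1 : M * H.card ≤ 3 * (univ.filter fun j => ¬ Disjoint (B j) H).card := by
    calc M * H.card = ∑ v ∈ H, M := by rw [Finset.sum_const, smul_eq_mul, mul_comm]
      _ ≤ ∑ v ∈ H, (univ.filter fun j => v ∈ B j).card := by
        refine Finset.sum_le_sum fun v hv => ?_
        rw [hH, grt_H, mem_filter] at hv
        exact hv.2.le
      _ = ∑ j : Fin m, (H.filter fun v => v ∈ B j).card := by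
        simp only [Finset.card_filter]
        rw [Finset.sum_comm]
      _ ≤ ∑ j : Fin m, if ¬ Disjoint (B j) H then 3 else 0 := by
        refine Finset.sum_le_sum fun j _ => ?_
        split_ifs with hd
        · rw [Nat.le_zero, Finset.card_eq_zero, Finset.filter_eq_empty_iff]
          intro v hv hvj
          exact Finset.disjoint_left.1 hd hvj hv
        · refine (Finset.card_le_card ?_).trans (h3 j)
          intro v hv
          exact (mem_filter.1 hv).2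
      _ = 3 * (univ.filter fun j => ¬ Disjoint (B j) H).card := by
        rw [← Finset.sum_filter, Finset.sum_const, smul_eq_mul, mul_comm]
  have h2 : (M : ℝ) * H.card ≤ 3 * ((univ.filter fun j => ¬ Disjoint (B j) H).card : ℝ) := by
    exact_mod_cast h1
  have h4 := hT H
  have h5 : (M : ℝ) * H.card ≤ 3 * (C * Real.sqrt (H.card * n)) := by linarith
  have h6 : (0 : ℝ) ≤ (H.card : ℝ) * n := by positivity
  have h7 : ((M : ℝ) * H.card) ^ 2 ≤ (3 * (C * Real.sqrt (H.card * n))) ^ 2 :=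
    pow_le_pow_left₀ (by positivity) h5 2
  have h8 : (3 * (C * Real.sqrt (H.card * n))) ^ 2 = 9 * C ^ 2 * (H.card * n) := by
    rw [mul_pow, mul_pow, Real.sq_sqrt h6]
    ring
  rw [h8] at h7
  rcases Nat.eq_zero_or_pos H.card with h0 | h0
  · rw [h0]
    push_cast
    have : 0 ≤ 9 * C ^ 2 * (n : ℝ) := by positivity
    linarith
  · have h9 : (0 : ℝ) < H.card := by exact_mod_cast h0
    have h10 : ((M : ℝ) ^ 2 * H.card) * H.card ≤ (9 * C ^ 2 * n) * H.card := by nlinarith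
    exact le_of_mul_le_mul_right h10 h9

private theorem grt_touch (S : Finset (Fin n)) :
    (univ.filter fun j => ¬ Disjoint (B j) S).card ≤ ∑ v ∈ S, (univ.filter fun j => v ∈ B j).card := by
  have h1 : (univ.filter fun j => ¬ Disjoint (B j) S) ⊆ S.biUnion fun v => univ.filter fun j => v ∈ B j := by
    intro j hj
    rw [mem_filter, Finset.not_disjoint_iff] at hj
    obtain ⟨_, v, hv, hvS⟩ := hj
    exact mem_biUnion.2 ⟨v, hvS, mem_filter.2 ⟨mem_univ _, hv⟩⟩
  exact (Finset.card_le_card h1).trans Finset.card_biUnion_le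

private theorem grt_set_mono {S T : Finset (Fin n)} (h : S ⊆ T) (R : ℕ) : (nb B)^[R] S ⊆ (nb B)^[R] T := by
  intro u hu
  obtain ⟨v, hv, hu⟩ := nb_union.1 hu
  exact nb_union.2 ⟨v, h hv, hu⟩

private theorem grt_ball (h3 : ∀ j, (B j).card ≤ 3) (M R : ℕ) (v : Fin n) (hv : v ∉ (nb B)^[R] (grt_H B M)) :
    ∀ i : ℕ, i ≤ R → ((nb B)^[i] {v}).card ≤ (1 + 3 * M) ^ i := by
  intro i
  induction i with
  | zero => intro _; simp
  | succ i ih =>
    intro hi
    have h1 := ih (by omega)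
    rw [Function.iterate_succ_apply']
    obtain ⟨S, hS⟩ : ∃ S, S = (nb B)^[i] {v} := ⟨_, rfl⟩
    rw [← hS] at h1 ⊢
    have hdeg : ∀ w ∈ S, (univ.filter fun j => w ∈ B j).card ≤ M := by
      intro w hw
      by_contra hcon
      apply hv
      have hwH : w ∈ grt_H B M := by
        rw [grt_H, mem_filter]
        exact ⟨mem_univ _, not_le.1 hcon⟩
      rw [hS] at hw
      refine nb_mono (show i ≤ R by omega) _ ?_
      exact nb_union.2 ⟨w, hwH, nb_symm.1 hw⟩
    have h2 := grt_card h3 S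
    have h4 := grt_touch (B := B) S
    have h5 : ∑ w ∈ S, (univ.filter fun j => w ∈ B j).card ≤ S.card * M := by
      refine (Finset.sum_le_card_nsmul _ _ M hdeg).trans (le_of_eq (smul_eq_mul _ _))
    calc (nb B S).card ≤ S.card + 3 * (S.card * M) := by omega
      _ = S.card * (1 + 3 * M) := by ring
      _ ≤ (1 + 3 * M) ^ i * (1 + 3 * M) := Nat.mul_le_mul_right _ h1
      _ = (1 + 3 * M) ^ (i + 1) := by rw [pow_succ]

end

theorem bad_le {C : ℝ} (hC : 0 ≤ C) (R : ℕ) {ν : ℝ} (hν : 0 < ν) : ∃ Λ : ℝ, 0 < Λ ∧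
    ∀ (n m : ℕ) (B : Fin m → Finset (Fin n)), (∀ j, (B j).card ≤ 3) → Tch C B →
      ((univ.filter fun v => Λ < (((nb B)^[R] {v}).card : ℝ)).card : ℝ) ≤ ν * n := by
  obtain ⟨δ, hδ, hit⟩ := grt_iter hC R ν hν
  obtain ⟨M, hM⟩ : ∃ M : ℕ, 9 * C ^ 2 / δ + 1 < M := exists_nat_gt _
  have hM0 : (1 : ℝ) ≤ M := by
    have : 0 ≤ 9 * C ^ 2 / δ := by positivity
    linarith
  have hM2 : 9 * C ^ 2 ≤ δ * (M : ℝ) ^ 2 := by
    have h1 : 9 * C ^ 2 / δ ≤ M := by linarith
    rw [div_le_iff₀ hδ] at h1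
    nlinarith
  refine ⟨(1 + 3 * (M : ℝ)) ^ R, by positivity, fun n m B h3 hT => ?_⟩
  have hH : ((grt_H B M).card : ℝ) ≤ δ * n := by
    have h1 := grt_deg hC h3 hT M
    have hn : (0 : ℝ) ≤ n := Nat.cast_nonneg n
    have h2 : ((M : ℝ) ^ 2) * ((grt_H B M).card : ℝ) ≤ (M : ℝ) ^ 2 * (δ * n) := by nlinarith
    exact le_of_mul_le_mul_left h2 (by positivity)
  have h4 := hit n m B h3 hT (grt_H B M) hH
  refine le_trans ?_ h4
  have h5 : (univ.filter fun v => (1 + 3 * (M : ℝ)) ^ R < (((nb B)^[R] {v}).card : ℝ)) ⊆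
      (nb B)^[R] (grt_H B M) := by
    intro v hv
    rw [mem_filter] at hv
    by_contra hcon
    have h6 := grt_ball h3 M R v hcon R le_rfl
    have h7 : (((nb B)^[R] {v}).card : ℝ) ≤ (1 + 3 * (M : ℝ)) ^ R := by exact_mod_cast h6
    linarith [hv.2]
  exact_mod_cast Finset.card_le_card h5

end Pool.H6.LD
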