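import Mathlib
import Pool.Agent.H6.LD.Grd
import Pool.Agent.H6.LE.Wgt

set_option autoImplicit false
set_option linter.unusedSectionVars false

/-!
# Module SBG (THEOREM LE): good subfamilies, if almost all balls are of bounded size
-/

namespace Pool.H6.LD

open Finset Classical Pool.Agent.H55.QT

variable {n m r : ℕ} {B : Fin m → Finset (Fin n)} {b : Fin m → Bool}

private theorem grd_meet (S : Finset (Fin n)) (G : Tst n)
    (hd : ∀ p ∈ G, ∀ p' ∈ G, p ≠ p' → Disjoint p.1 p'.1) (hm : ∀ p ∈ G, ¬ Disjoint S p.1) :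
    G.card ≤ S.card := by
  have h1 : ∀ p ∈ G, ∃ v, v ∈ S ∧ v ∈ p.1 := by
    intro p hp
    obtain ⟨v, hv1, hv2⟩ := Finset.not_disjoint_iff.1 (hm p hp)
    exact ⟨v, hv1, hv2⟩
  rcases G.eq_empty_or_nonempty with rfl | ⟨p₀, hp₀⟩
  · simp
  obtain ⟨v₀, -, -⟩ := h1 p₀ hp₀
  obtain ⟨f, hf⟩ : ∃ f : Finset (Fin n) × (Fin n → Bool) → Fin n, ∀ p ∈ G, f p ∈ S ∧ f p ∈ p.1 := by
    refine ⟨fun p => if h : ∃ v, v ∈ S ∧ v ∈ p.1 then h.choose else v₀, fun p hp => ?_⟩
    simp only [dif_pos (h1 p hp)]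
    exact (h1 p hp).choose_spec
  refine Finset.card_le_card_of_injOn f (fun p hp => (hf p hp).1) ?_
  intro p hp p' hp' he
  by_contra hne
  have h2 := hd p hp p' hp' hne
  exact Finset.disjoint_left.1 h2 (hf p hp).2 (by rw [he]; exact (hf p' hp').2)

private theorem grd_self {R : ℕ} (v : Fin n) : v ∈ (nb B)^[R] {v} :=
  nb_mono (Nat.zero_le R) {v} (Finset.mem_singleton_self v)

theorem xsub2 (hx : ∀ I : Finset (Fin m), I.card ≤ r → I.card ≤ 4 * (par B I).card) {A : ℕ} {ν M : ℝ}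
    (hM0 : 0 < M)
    (hbad : ((univ.filter fun v => M < (((nb B)^[8 * A + 1] {v}).card : ℝ)).card : ℝ) ≤ ν / 2 * n) :
    SubT (XCon B b r) A ν (ν / 2 / (A * M + 1)) := by
  intro F hdis hF hcard
  obtain ⟨R, hR⟩ : ∃ R : ℕ, R = 8 * A + 1 := ⟨_, rfl⟩
  rw [← hR] at hbad
  obtain ⟨Bd, hBd⟩ : ∃ Bd : Finset (Fin n), Bd = univ.filter fun v => M < (((nb B)^[R] {v}).card : ℝ) :=
    ⟨_, rfl⟩
  have hBdc : (Bd.card : ℝ) ≤ ν / 2 * n := by
    rw [hBd]
    exact hbad
  obtain ⟨F', hF'⟩ : ∃ F' : Tst n, F' = F.filter fun p => Disjoint Bd p.1 := ⟨_, rfl⟩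
  have hsub : F' ⊆ F := by
    rw [hF']
    exact Finset.filter_subset _ _
  have hF'c : ν / 2 * n ≤ F'.card := by
    have h1 : (F.filter fun p => ¬ Disjoint Bd p.1).card ≤ Bd.card := by
      refine grd_meet Bd _ (fun p hp p' hp' hne => hdis p (Finset.filter_subset _ _ hp) p'
        (Finset.filter_subset _ _ hp') hne) fun p hp => (Finset.mem_filter.1 hp).2
    have h2 : F'.card + (F.filter fun p => ¬ Disjoint Bd p.1).card = F.card := by
      rw [hF']
      exact Finset.card_filter_add_card_filter_not _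
    have h3 : (F.card : ℝ) ≤ F'.card + Bd.card := by
      exact_mod_cast (show F.card ≤ F'.card + Bd.card by omega)
    linarith
  obtain ⟨t, ht1, ht2, ht3⟩ := greedy F' (fun p q => ¬ Disjoint ((nb B)^[R] p.1) q.1) (by
    intro p q h
    obtain ⟨u, hu1, hu2⟩ := Finset.not_disjoint_iff.1 h
    obtain ⟨v, hv1, hv2⟩ := nb_union.1 hu1
    exact Finset.not_disjoint_iff.2 ⟨v, nb_union.2 ⟨u, hu2, nb_symm.1 hv2⟩, hv1⟩) (A * M) (by
    intro p hp
    have hpF := hsub hp
    have h1 : (F'.filter fun q => q ≠ p ∧ ¬ Disjoint ((nb B)^[R] p.1) q.1).card ≤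
        ((nb B)^[R] p.1).card := by
      refine grd_meet _ _ (fun q hq q' hq' hne => hdis q (hsub (Finset.filter_subset _ _ hq)) q'
        (hsub (Finset.filter_subset _ _ hq')) hne) fun q hq => (Finset.mem_filter.1 hq).2.2
    have h2 : ((nb B)^[R] p.1).card ≤ ∑ v ∈ p.1, ((nb B)^[R] {v}).card := by
      refine le_trans (Finset.card_le_card ?_) Finset.card_biUnion_le
      intro u hu
      obtain ⟨v, hv1, hv2⟩ := nb_union.1 hu
      exact Finset.mem_biUnion.2 ⟨v, hv1, hv2⟩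
    have h3 : ((∑ v ∈ p.1, ((nb B)^[R] {v}).card : ℕ) : ℝ) ≤ A * M := by
      push_cast
      calc ∑ v ∈ p.1, (((nb B)^[R] {v}).card : ℝ) ≤ ∑ _v ∈ p.1, M := Finset.sum_le_sum fun v hv => by
            rw [hF', Finset.mem_filter] at hp
            by_contra h4
            push Not at h4
            refine Finset.disjoint_left.1 hp.2 ?_ hv
            rw [hBd, Finset.mem_filter]
            exact ⟨Finset.mem_univ _, h4⟩
        _ = (p.1.card : ℝ) * M := by rw [Finset.sum_const, nsmul_eq_mul]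
        _ ≤ A * M := by
            have h5 : (p.1.card : ℝ) ≤ A := by exact_mod_cast (hF p hpF).1
            exact mul_le_mul_of_nonneg_right h5 hM0.le
    refine le_trans ?_ h3
    exact_mod_cast h1.trans h2)
  refine ⟨t, ht1.trans hsub, ⟨fun p hp p' hp' hne => hdis p (hsub (ht1 hp)) p' (hsub (ht1 hp')) hne,
    fun p hp => (hF p (hsub (ht1 hp))).2.2, fun J hJ x hc => ?_⟩, ?_⟩
  · refine xind hx (A := A) (t := t) (fun p hp => (hF p (hsub (ht1 hp))).1) (fun p hp p' hp' hne => ?_)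
      hJ hc
    have h1 := ht2 p hp p' hp' hne
    rw [not_not, hR] at h1
    exact h1
  · rw [div_mul_eq_mul_div, div_le_iff₀ (by positivity)]
    refine hF'c.trans (ht3.trans (le_of_eq ?_))
    ring

end Pool.H6.LD
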