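import Mathlib
import Pool.Agent.H6.LD.Upd
import Pool.Agent.H6.LE.Defs

set_option autoImplicit false
set_option linter.unusedSectionVars false

/-!
# Module TCP (THEOREM LE): in almost all 3-CNFs every set of variables meets few clauses

`C := 3 * exp 3 * Δ` (or any larger constant; `≥ 2`). PROOF (union bound). Suppose `¬ Tch C (fun j => cvar (φ j))`: there is `S`, `s := S.card`, `C √(s n) < #{j | B j meets S}`; then `1 ≤ s` (for `S = ∅` the number is `0`), and there is `J` with `J.card = t := ⌊C √(s n)⌋₊ + 1` such that `cvar (φ j)` meets `S`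
for all `j ∈ J`. For fixed `S`, `J`: `#{φ | ∀ j ∈ J, cvar (φ j) meets S} ≤ (3 s / n) ^ t * card (Fin (Δ n) → Cl n)`: the number of clauses `c` with `¬ Disjoint (cvar c) S` is at most `∑ v ∈ S, #{c | v ∈ cvar c} ≤ s * 3 / n * card (Cl n)`
(`card_mem` in Upd) and the set of the `φ` is a product (`Fintype.piFinset`, `Fintype.card_piFinset`; or use `upd` and induction on `J`). There are `choose n s ≤ (e n / s) ^ s` sets `S` and `choose (Δ n) t ≤ (e Δ n / t) ^ t` sets `J` (`e = exp 1`; `s! ≥ (s / e) ^ s`; see `rbin` and its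
ingredients in `Pool/Agent/H55/QT/RBin.lean`). So the fraction of bad `φ` is at most `∑ s ∈ Icc 1 n, (e n / s) ^ s * (3 e Δ s / t) ^ t`. As `s ≤ √(s n)` and `t ≥ C √(s n)`: `3 e Δ s / t ≤ 3 e Δ / C * √(s / n) = exp (-2) * √(s / n)`, `t ≥ 2 s`, so
`(3 e Δ s / t) ^ t ≤ exp (-2 t) * (s / n) ^ s` and the term is at most `exp (s - 2 t) ≤ exp (-t) ≤ exp (-√n)` (`s ≤ t`, `t ≥ √n`). Total at most `n * exp (-√n)`, which tends to `0` (e.g. `exp (√n) ≥ (√n) ^ 3 / 6`).
-/

namespace Pool.H6.LD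

open Finset Classical Pool.Agent.H55.QT

/-- the number of the clauses which meet a set -/
private theorem cl_meet {n : ℕ} (S : Finset (Fin n)) :
    (univ.filter fun c : Cl n => ¬ Disjoint (cvar c) S).card * n ≤ 3 * S.card * Fintype.card (Cl n) := by
  have h1 : (univ.filter fun c : Cl n => ¬ Disjoint (cvar c) S).card ≤
      ∑ v ∈ S, (univ.filter fun c : Cl n => v ∈ cvar c).card := by
    refine (Finset.card_le_card ?_).trans Finset.card_biUnion_le
    intro c hc
    rw [Finset.mem_filter, Finset.not_disjoint_iff] at hc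
    obtain ⟨-, v, hv1, hv2⟩ := hc
    rw [Finset.mem_biUnion]
    exact ⟨v, hv2, by rw [Finset.mem_filter]; exact ⟨Finset.mem_univ _, hv1⟩⟩
  calc (univ.filter fun c : Cl n => ¬ Disjoint (cvar c) S).card * n
      ≤ (∑ v ∈ S, (univ.filter fun c : Cl n => v ∈ cvar c).card) * n := Nat.mul_le_mul_right _ h1
    _ = ∑ v ∈ S, (univ.filter fun c : Cl n => v ∈ cvar c).card * n := Finset.sum_mul _ _ _
    _ ≤ ∑ _v ∈ S, 3 * Fintype.card (Cl n) := Finset.sum_le_sum fun v _ => card_mem v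
    _ = 3 * S.card * Fintype.card (Cl n) := by
      rw [Finset.sum_const, smul_eq_mul]
      ring

/-- one set of variables and one set of clauses -/
private theorem fix_JS {n m : ℕ} (S : Finset (Fin n)) (J : Finset (Fin m)) :
    (univ.filter fun φ : Fin m → Cl n => ∀ j ∈ J, ¬ Disjoint (cvar (φ j)) S).card * n ^ J.card ≤
      (3 * S.card) ^ J.card * Fintype.card (Fin m → Cl n) := by
  have h1 : (univ.filter fun φ : Fin m → Cl n => ∀ j ∈ J, ¬ Disjoint (cvar (φ j)) S) =
      Fintype.piFinset fun j => if j ∈ J then (univ.filter fun c : Cl n => ¬ Disjoint (cvar c) S) else univ := by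
    ext φ
    rw [Finset.mem_filter, Fintype.mem_piFinset]
    constructor
    · rintro ⟨-, h⟩ j
      split_ifs with hj
      · rw [Finset.mem_filter]
        exact ⟨Finset.mem_univ _, h j hj⟩
      · exact Finset.mem_univ _
    · intro h
      refine ⟨Finset.mem_univ _, fun j hj => ?_⟩
      have h2 := h j
      rw [if_pos hj, Finset.mem_filter] at h2
      exact h2.2
  have hn : n ^ J.card = ∏ j : Fin m, (if j ∈ J then n else 1) := by
    rw [Finset.prod_ite_mem, Finset.univ_inter, Finset.prod_const]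
  have hs : (3 * S.card) ^ J.card = ∏ j : Fin m, (if j ∈ J then 3 * S.card else 1) := by
    rw [Finset.prod_ite_mem, Finset.univ_inter, Finset.prod_const]
  have hK : Fintype.card (Fin m → Cl n) = ∏ _j : Fin m, Fintype.card (Cl n) := Fintype.card_pi
  rw [h1, Fintype.card_piFinset, hn, hs, hK, ← Finset.prod_mul_distrib, ← Finset.prod_mul_distrib]
  refine Finset.prod_le_prod' fun j _ => ?_
  split_ifs
  · exact cl_meet S
  · rw [mul_one, one_mul, Finset.card_univ]

private theorem ch_le (a b : ℕ) (hb : 1 ≤ b) : (a.choose b : ℝ) ≤ (Real.exp 1 * a / b) ^ b := by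
  have hb0 : (0 : ℝ) < b := by exact_mod_cast hb
  have h1 : (a.choose b : ℝ) ≤ (a : ℝ) ^ b / (b.factorial : ℝ) := Nat.choose_le_pow_div b a
  have h2 : (b : ℝ) ^ b / (b.factorial : ℝ) ≤ Real.exp b := Real.pow_div_factorial_le_exp (b : ℝ) hb0.le b
  have h3 : (0 : ℝ) < b.factorial := by exact_mod_cast Nat.factorial_pos b
  have h4 : (0 : ℝ) < (b : ℝ) ^ b := by positivity
  rw [div_pow, mul_pow, ← Real.exp_nat_mul, mul_one]
  refine h1.trans ?_
  rw [div_le_div_iff₀ h3 h4]
  rw [div_le_iff₀ h3] at h2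
  have h5 := mul_le_mul_of_nonneg_left h2 (by positivity : (0 : ℝ) ≤ (a : ℝ) ^ b)
  linarith

/-- the estimate of one term -/
private theorem term_le {Δ n s t : ℕ} (hΔ : 1 ≤ Δ) (hs : 1 ≤ s) (hsn : s ≤ n)
    (ht : 3 * Real.exp 3 * Δ * Real.sqrt (s * n) ≤ t) (ht1 : 1 ≤ t) :
    (n.choose s : ℝ) * (((Δ * n).choose t : ℝ) * (3 * s / n : ℝ) ^ t) ≤ Real.exp (-Real.sqrt n) := by
  have hs0 : (0 : ℝ) < s := by exact_mod_cast hs
  have hs1 : (1 : ℝ) ≤ s := by exact_mod_cast hs
  have hn0 : (0 : ℝ) < n := by exact_mod_cast (lt_of_lt_of_le hs hsn)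
  have hn1 : (1 : ℝ) ≤ n := by exact_mod_cast hs.trans hsn
  have hsn' : (s : ℝ) ≤ n := by exact_mod_cast hsn
  have ht0 : (0 : ℝ) < t := by exact_mod_cast ht1
  have hΔ0 : (1 : ℝ) ≤ Δ := by exact_mod_cast hΔ
  have he1 : (1 : ℝ) ≤ Real.exp 3 := Real.one_le_exp (by norm_num)
  have hq0 : 0 ≤ Real.sqrt (s * n) := Real.sqrt_nonneg _
  have hc : (3 : ℝ) ≤ 3 * Real.exp 3 * Δ := by nlinarith
  have hq1 : (s : ℝ) ≤ Real.sqrt (s * n) := by
    rw [Real.le_sqrt hs0.le (by positivity)]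
    nlinarith
  have hq2 : Real.sqrt n ≤ Real.sqrt (s * n) := Real.sqrt_le_sqrt (by nlinarith)
  have ht3 : 3 * Real.sqrt (s * n) ≤ t := (mul_le_mul_of_nonneg_right hc hq0).trans ht
  have ht2 : 2 * s ≤ t := by
    have : (2 * s : ℝ) ≤ t := by linarith
    exact_mod_cast this
  -- the quotient
  obtain ⟨r, hr⟩ : ∃ r : ℝ, r = Real.sqrt (s / n) := ⟨_, rfl⟩
  have hr0 : 0 ≤ r := by rw [hr]; exact Real.sqrt_nonneg _
  have hr2 : r ^ 2 = s / n := by rw [hr, Real.sq_sqrt (by positivity)]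
  have hr1 : r ≤ 1 := by
    rw [hr]
    refine Real.sqrt_le_one.2 ?_
    rw [div_le_one hn0]
    exact hsn'
  have hrn : Real.sqrt (s * n) = r * n := by
    rw [hr, Real.sqrt_eq_iff_mul_self_eq (by positivity) (by positivity)]
    have h1 : Real.sqrt (s / n) * Real.sqrt (s / n) = s / n := Real.mul_self_sqrt (by positivity)
    symm
    calc Real.sqrt (s / n) * n * (Real.sqrt (s / n) * n) = (Real.sqrt (s / n) * Real.sqrt (s / n)) * (n * n) := by ring
      _ = s * n := by
        rw [h1]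
        field_simp
  have h1 := ch_le n s hs
  have h2 := ch_le (Δ * n) t ht1
  have h3 : ((Δ * n).choose t : ℝ) * (3 * s / n : ℝ) ^ t ≤ (Real.exp (-2) * r) ^ t := by
    refine (mul_le_mul_of_nonneg_right h2 (by positivity)).trans ?_
    rw [← mul_pow]
    refine pow_le_pow_left₀ (by positivity) ?_ t
    push_cast
    have h4 : Real.exp 1 * (Δ * n) / t * (3 * s / n) = 3 * Real.exp 1 * Δ * s / t := by
      field_simp
    rw [h4, div_le_iff₀ ht0]
    have h5 : Real.exp (-2) * r * (3 * Real.exp 3 * Δ * Real.sqrt (s * n)) ≤ Real.exp (-2) * r * t :=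
      mul_le_mul_of_nonneg_left ht (by positivity)
    refine le_trans (le_of_eq ?_) h5
    rw [hrn]
    have h6 : Real.exp 1 = Real.exp (-2) * Real.exp 3 := by
      rw [← Real.exp_add]
      norm_num
    have h7 : (s : ℝ) = r ^ 2 * n := by
      rw [hr2]
      field_simp
    rw [h6]
    conv_lhs => rw [h7]
    ring
  have h8 : (Real.exp (-2) * r) ^ t ≤ Real.exp (-2 * t) * (s / n : ℝ) ^ s := by
    rw [mul_pow, ← Real.exp_nat_mul, ← hr2, ← pow_mul, mul_comm (t : ℝ)]
    exact mul_le_mul_of_nonneg_left (pow_le_pow_of_le_one hr0 hr1 ht2) (Real.exp_pos _).le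
  calc (n.choose s : ℝ) * (((Δ * n).choose t : ℝ) * (3 * s / n : ℝ) ^ t)
      ≤ (Real.exp 1 * n / s) ^ s * (Real.exp (-2 * t) * (s / n : ℝ) ^ s) :=
        mul_le_mul h1 (h3.trans h8) (by positivity) (by positivity)
    _ = (Real.exp 1 * n / s * (s / n)) ^ s * Real.exp (-2 * t) := by
        rw [mul_pow]
        ring
    _ = Real.exp (s - 2 * t) := by
        have h9 : Real.exp 1 * n / s * (s / n) = Real.exp 1 := by
          field_simp
        rw [h9, ← Real.exp_nat_mul, ← Real.exp_add]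
        congr 1
        ring
    _ ≤ Real.exp (-Real.sqrt n) := by
        rw [Real.exp_le_exp]
        have : (2 * s : ℝ) ≤ t := by exact_mod_cast ht2
        linarith

theorem tcp {Δ : ℕ} (hΔ : 1 ≤ Δ) : ∃ C : ℝ, 0 < C ∧ ∀ e : ℝ, 0 < e → ∃ n0 : ℕ, ∀ n : ℕ, n0 ≤ n →
    ((univ.filter fun φ : Fin (Δ * n) → Cl n => ¬ Tch C (fun j => cvar (φ j))).card : ℝ) ≤
      e * Fintype.card (Fin (Δ * n) → Cl n) := by
  have hΔ0 : (1 : ℝ) ≤ Δ := by exact_mod_cast hΔ
  obtain ⟨C, hC⟩ : ∃ C : ℝ, C = 3 * Real.exp 3 * Δ := ⟨_, rfl⟩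
  have hC0 : 0 < C := by rw [hC]; positivity
  refine ⟨C, hC0, fun e he => ?_⟩
  -- the limit
  obtain ⟨n0, hn0⟩ : ∃ n0 : ℕ, ∀ n : ℕ, n0 ≤ n → (n : ℝ) * Real.exp (-Real.sqrt n) ≤ e := by
    have h1 : Filter.Tendsto (fun n : ℕ => Real.sqrt (n : ℝ)) Filter.atTop Filter.atTop :=
      Real.tendsto_sqrt_atTop.comp tendsto_natCast_atTop_atTop
    have h2 := (Real.tendsto_pow_mul_exp_neg_atTop_nhds_zero 2).comp h1
    have h3 := h2.eventually (gt_mem_nhds he)
    obtain ⟨n0, hn0⟩ := Filter.eventually_atTop.1 h3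
    refine ⟨n0, fun n hn => ?_⟩
    have h4 : Real.sqrt (n : ℝ) ^ 2 * Real.exp (-Real.sqrt n) < e := hn0 n hn
    rw [Real.sq_sqrt (Nat.cast_nonneg n)] at h4
    exact h4.le
  refine ⟨max n0 1, fun n hn => ?_⟩
  have hn1 : 1 ≤ n := (le_max_right _ _).trans hn
  have hn0' : (0 : ℝ) < n := by exact_mod_cast hn1
  obtain ⟨t, ht⟩ : ∃ t : ℕ → ℕ, t = fun s : ℕ => ⌊C * Real.sqrt ((s : ℝ) * n)⌋₊ + 1 := ⟨_, rfl⟩
  obtain ⟨N, hN⟩ : ∃ N : ℝ, N = (Fintype.card (Fin (Δ * n) → Cl n) : ℝ) := ⟨_, rfl⟩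
  have hN0 : 0 ≤ N := by rw [hN]; positivity
  obtain ⟨f, hf⟩ : ∃ f : ℕ → ℝ, f = fun s : ℕ => if s = 0 then 0 else
      ((Δ * n).choose (t s) : ℝ) * (3 * s / n : ℝ) ^ (t s) := ⟨_, rfl⟩
  -- the union
  have hsub : (univ.filter fun φ : Fin (Δ * n) → Cl n => ¬ Tch C (fun j => cvar (φ j))) ⊆
      ((univ : Finset (Fin n)).powerset.filter fun S => S.card ≠ 0).biUnion fun S =>
        ((univ : Finset (Fin (Δ * n))).powersetCard (t S.card)).biUnion fun J =>
          univ.filter fun φ : Fin (Δ * n) → Cl n => ∀ j ∈ J, ¬ Disjoint (cvar (φ j)) S := by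
    intro φ hφ
    rw [Finset.mem_filter] at hφ
    have h1 := hφ.2
    unfold Tch at h1
    push Not at h1
    obtain ⟨S, hS⟩ := h1
    have h2 : t S.card ≤ (univ.filter fun j => ¬ Disjoint (cvar (φ j)) S).card := by
      rw [ht]
      exact Nat.succ_le_of_lt ((Nat.floor_lt (by positivity)).2 hS)
    have h3 : S.card ≠ 0 := by
      intro h4
      rw [Finset.card_eq_zero] at h4
      rw [h4] at h2
      have h5 : (univ.filter fun j => ¬ Disjoint (cvar (φ j)) (∅ : Finset (Fin n))) = ∅ := by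
        refine Finset.filter_eq_empty_iff.2 fun j _ h6 => h6 (Finset.disjoint_empty_right _)
      rw [h5, Finset.card_empty, ht] at h2
      exact Nat.not_succ_le_zero _ h2
    obtain ⟨J, hJ1, hJ2⟩ := Finset.exists_subset_card_eq h2
    rw [Finset.mem_biUnion]
    refine ⟨S, ?_, ?_⟩
    · rw [Finset.mem_filter, Finset.mem_powerset]
      exact ⟨Finset.subset_univ _, h3⟩
    · rw [Finset.mem_biUnion]
      refine ⟨J, ?_, ?_⟩
      · rw [Finset.mem_powersetCard]
        exact ⟨Finset.subset_univ _, hJ2⟩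
      · rw [Finset.mem_filter]
        exact ⟨Finset.mem_univ _, fun j hj => (Finset.mem_filter.1 (hJ1 hj)).2⟩
  -- the bound of one set of variables
  have hone : ∀ S ∈ ((univ : Finset (Fin n)).powerset.filter fun S => S.card ≠ 0),
      ((((univ : Finset (Fin (Δ * n))).powersetCard (t S.card)).biUnion fun J =>
          univ.filter fun φ : Fin (Δ * n) → Cl n => ∀ j ∈ J, ¬ Disjoint (cvar (φ j)) S).card : ℝ) ≤
        f S.card * N := by
    intro S hS
    have hS0 := (Finset.mem_filter.1 hS).2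
    have h1 : ((((univ : Finset (Fin (Δ * n))).powersetCard (t S.card)).biUnion fun J =>
          univ.filter fun φ : Fin (Δ * n) → Cl n => ∀ j ∈ J, ¬ Disjoint (cvar (φ j)) S).card : ℝ) ≤
        ∑ J ∈ (univ : Finset (Fin (Δ * n))).powersetCard (t S.card),
          ((univ.filter fun φ : Fin (Δ * n) → Cl n => ∀ j ∈ J, ¬ Disjoint (cvar (φ j)) S).card : ℝ) := by
      exact_mod_cast Finset.card_biUnion_le
    have h2 : ∀ J ∈ (univ : Finset (Fin (Δ * n))).powersetCard (t S.card),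
        ((univ.filter fun φ : Fin (Δ * n) → Cl n => ∀ j ∈ J, ¬ Disjoint (cvar (φ j)) S).card : ℝ) ≤
          (3 * (S.card : ℝ) / n) ^ (t S.card) * N := by
      intro J hJ
      have hJc := (Finset.mem_powersetCard.1 hJ).2
      have h3 := fix_JS S J
      rw [hJc] at h3
      have h4 : ((univ.filter fun φ : Fin (Δ * n) → Cl n => ∀ j ∈ J, ¬ Disjoint (cvar (φ j)) S).card : ℝ) *
          (n : ℝ) ^ (t S.card) ≤ (3 * (S.card : ℝ)) ^ (t S.card) * N := by
        rw [hN]
        exact_mod_cast h3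
      rw [div_pow, div_mul_eq_mul_div, le_div_iff₀ (by positivity)]
      exact h4
    refine h1.trans ((Finset.sum_le_sum h2).trans (le_of_eq ?_))
    rw [Finset.sum_const, Finset.card_powersetCard, Finset.card_univ, Fintype.card_fin, nsmul_eq_mul, hf]
    simp only [if_neg hS0]
    ring
  have hf0 : ∀ s, 0 ≤ f s := by
    intro s
    rw [hf]
    dsimp only
    split_ifs
    · exact le_rfl
    · positivity
  have hmain : ((univ.filter fun φ : Fin (Δ * n) → Cl n => ¬ Tch C (fun j => cvar (φ j))).card : ℝ) ≤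
      ∑ S ∈ (univ : Finset (Fin n)).powerset, f S.card * N := by
    have h1 : ((univ.filter fun φ : Fin (Δ * n) → Cl n => ¬ Tch C (fun j => cvar (φ j))).card : ℝ) ≤
        ∑ S ∈ ((univ : Finset (Fin n)).powerset.filter fun S => S.card ≠ 0),
          ((((univ : Finset (Fin (Δ * n))).powersetCard (t S.card)).biUnion fun J =>
          univ.filter fun φ : Fin (Δ * n) → Cl n => ∀ j ∈ J, ¬ Disjoint (cvar (φ j)) S).card : ℝ) := by
      exact_mod_cast (Finset.card_le_card hsub).trans Finset.card_biUnion_le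
    refine h1.trans ((Finset.sum_le_sum hone).trans ?_)
    exact Finset.sum_le_sum_of_subset_of_nonneg (Finset.filter_subset _ _)
      fun S _ _ => mul_nonneg (hf0 _) hN0
  have hsum : ∑ S ∈ (univ : Finset (Fin n)).powerset, f S.card * N ≤ n * Real.exp (-Real.sqrt n) * N := by
    rw [← Finset.sum_mul, Finset.sum_powerset_apply_card f, Finset.card_univ, Fintype.card_fin]
    refine mul_le_mul_of_nonneg_right ?_ hN0
    rw [Finset.sum_range_succ']
    have h0 : n.choose 0 • f 0 = 0 := by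
      rw [hf]
      simp
    rw [h0, add_zero]
    have h1 : ∀ s ∈ Finset.range n, n.choose (s + 1) • f (s + 1) ≤ Real.exp (-Real.sqrt n) := by
      intro s hs
      rw [Finset.mem_range] at hs
      rw [nsmul_eq_mul, hf]
      simp only [if_neg (Nat.succ_ne_zero s)]
      refine term_le hΔ (Nat.succ_le_succ (Nat.zero_le s)) hs ?_ ?_
      · rw [ht, ← hC]
        push_cast
        have h3 := Nat.lt_floor_add_one (C * Real.sqrt (((s : ℝ) + 1) * n))
        exact h3.le
      · rw [ht]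
        exact Nat.succ_le_succ (Nat.zero_le _)
    refine (Finset.sum_le_sum h1).trans (le_of_eq ?_)
    rw [Finset.sum_const, Finset.card_range, nsmul_eq_mul]
  rw [← hN]
  exact (hmain.trans hsum).trans (mul_le_mul_of_nonneg_right (hn0 n ((le_max_left _ _).trans hn)) hN0)

end Pool.H6.LD
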