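import Mathlib
import Pool.Agent.H6.LE.Det
import Pool.Agent.H6.LE.Tcp
import Pool.Agent.H6.LE.Exq
import Pool.Agent.H6.LE.Grt
import Pool.Agent.H6.LE.Sbg
import Pool.Agent.H55.QT.RFin

set_option autoImplicit false
set_option linter.unusedSectionVars false

/-!
# Module FIN (THEOREM LE): random 3-CNFs, with probability tending to 1
-/

namespace Pool.H6.LD

open Finset Classical Pool.Agent.H3.Frg Pool.Agent.H3.Frg2 Pool.Agent.H3.Frg4 Pool.Agent.H55.QT Pool.H6.QL

private theorem ld_sat {Δ n : ℕ} (hΔ : 6 ≤ Δ) :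
    ((univ.filter fun φ : Fin (Δ * n) → Cl n => Sat φ).card : ℝ) ≤
      (9 / 10 : ℝ) ^ n * Fintype.card (Fin (Δ * n) → Cl n) := by
  have h1 := card_sat (n := n) (m := Δ * n)
  obtain ⟨A, hA⟩ : ∃ A, A = (univ.filter fun φ : Fin (Δ * n) → Cl n => Sat φ).card := ⟨_, rfl⟩
  obtain ⟨T, hT⟩ : ∃ T, T = Fintype.card (Fin (Δ * n) → Cl n) := ⟨_, rfl⟩
  rw [← hA, ← hT] at h1 ⊢
  have h2 : (8 : ℝ) ^ (Δ * n) * A ≤ 2 ^ n * 7 ^ (Δ * n) * T := by exact_mod_cast h1
  have h3 : (A : ℝ) ≤ (2 ^ n * (7 / 8 : ℝ) ^ (Δ * n)) * T := by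
    have h8 : (0 : ℝ) < 8 ^ (Δ * n) := by positivity
    have e1 : (2 ^ n * (7 / 8 : ℝ) ^ (Δ * n)) * T = 2 ^ n * 7 ^ (Δ * n) * T / 8 ^ (Δ * n) := by
      rw [div_pow]
      ring
    rw [e1, le_div_iff₀ h8]
    linarith
  refine h3.trans ?_
  refine mul_le_mul_of_nonneg_right ?_ (Nat.cast_nonneg _)
  rw [pow_mul, ← mul_pow]
  refine pow_le_pow_left₀ (by positivity) ?_ n
  have h4 : (7 / 8 : ℝ) ^ Δ ≤ (7 / 8 : ℝ) ^ 6 :=
    pow_le_pow_of_le_one (by norm_num) (by norm_num) hΔ
  have h5 : (7 / 8 : ℝ) ^ 6 ≤ 9 / 20 := by norm_num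
  linarith

private theorem ld_leaves {V : Type} (a : V × Bool) : (litF a).leaves = 1 := by
  obtain ⟨i, b⟩ := a
  cases b <;> rfl

private theorem ld_fv {V : Type} (a : V × Bool) : fv (litF a) = {a.1} := by
  obtain ⟨i, b⟩ := a
  cases b <;> rfl

private theorem ld_eval {V : Type} (a : V × Bool) (x : V → Bool) :
    (litF a).eval x = (x a.1 == a.2) := by
  obtain ⟨i, b⟩ := a
  cases b
  · show (!(x i)) = _
    cases x i <;> rfl
  · show x i = _
    cases x i <;> rfl

/-- the right sides -/
private def rs {n : ℕ} (c : Cl n) : Bool := !(xor (xor (!(c.2 0)) (!(c.2 1))) (!(c.2 2)))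

private theorem ld_par {n m : ℕ} (B : Fin m → Finset (Fin n)) (j : Fin m) : par B {j} = B j := by
  ext x
  unfold Pool.Agent.H55.QT.par
  rw [mem_filter, filter_singleton]
  by_cases h : x ∈ B j
  · rw [if_pos h, card_singleton]
    simp [h]
  · rw [if_neg h, card_empty]
    simp [h]

private theorem ld_cl {n m : ℕ} {φ : Fin m → Cl n} {r : ℕ} (hr : 1 ≤ r) (F : Fm (Fin n))
    (hF : F ∈ Cls {l | ∃ j, l = clist (φ j)}) : F.leaves ≤ 3 ∧
      ∀ y, XCon (fun j => cvar (φ j)) (fun j => rs (φ j)) r (fv F) y → F.eval y = true := by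
  obtain ⟨a, c, ⟨j, hj⟩, rfl⟩ := hF
  unfold clist at hj
  rw [List.cons.injEq] at hj
  obtain ⟨rfl, rfl⟩ := hj
  refine ⟨?_, fun y hy => ?_⟩
  · show (litF _).leaves + ((litF _).leaves + (litF _).leaves) ≤ 3
    rw [ld_leaves, ld_leaves, ld_leaves]
  · have h1 := hy {j} (by rw [card_singleton]; exact hr)
    rw [ld_par] at h1
    have h2 : cvar (φ j) ⊆ fv (clF ((φ j).1 0, (φ j).2 0) [((φ j).1 1, (φ j).2 1), ((φ j).1 2, (φ j).2 2)]) := by
      intro x hx
      simp only [clF, fv, ld_fv]
      unfold cvar at hx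
      rw [mem_map] at hx
      obtain ⟨i, -, rfl⟩ := hx
      simp only [mem_union, mem_singleton]
      fin_cases i
      · exact Or.inl rfl
      · exact Or.inr (Or.inl rfl)
      · exact Or.inr (Or.inr rfl)
    have h3 := h1 h2
    unfold sm cvar at h3
    rw [sum_map, Fin.sum_univ_three, sum_singleton] at h3
    unfold rs at h3
    beta_reduce at h3
    show (!(!((litF _).eval y)) || (!(!((litF _).eval y)) || (litF _).eval y)) = true
    rw [ld_eval, ld_eval, ld_eval]
    simp only
    revert h3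
    generalize (φ j).2 0 = s0
    generalize (φ j).2 1 = s1
    generalize (φ j).2 2 = s2
    generalize y ((φ j).1 0) = y0
    generalize y ((φ j).1 1) = y1
    generalize y ((φ j).1 2) = y2
    revert s0 s1 s2 y0 y1 y2
    decide

/-- the function `sub` for all sets of clauses with the property `Tch` -/
private theorem sub_ex {C : ℝ} (hC : 0 ≤ C) : ∃ sub : ℕ → ℝ → ℝ, (∀ A ν, 0 < ν → 0 < sub A ν) ∧
    ∀ (n m r : ℕ) (B : Fin m → Finset (Fin n)) (b : Fin m → Bool),
      (∀ I : Finset (Fin m), I.card ≤ r → I.card ≤ 4 * (par B I).card) → (∀ j, (B j).card ≤ 3) → Tch C B →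
      ∀ A ν, 0 < ν → SubT (XCon B b r) A ν (sub A ν) := by
  have h1 : ∀ (A : ℕ) (ν : ℝ), ∃ M : ℝ, 0 < M ∧ (0 < ν → ∀ (n m : ℕ) (B : Fin m → Finset (Fin n)),
      (∀ j, (B j).card ≤ 3) → Tch C B →
      ((univ.filter fun v => M < (((nb B)^[8 * A + 1] {v}).card : ℝ)).card : ℝ) ≤ ν / 2 * n) := by
    intro A ν
    by_cases hν : 0 < ν
    · obtain ⟨M, hM, h2⟩ := bad_le hC (8 * A + 1) (half_pos hν)
      exact ⟨M, hM, fun _ => h2⟩
    · exact ⟨1, one_pos, fun h2 => absurd h2 hν⟩
  choose M hM hM2 using h1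
  refine ⟨fun A ν => ν / 2 / (A * M A ν + 1), fun A ν hν => ?_, fun n m r B b hx hB hT A ν hν => ?_⟩
  · have := hM A ν
    positivity
  · exact xsub2 hx (hM A ν) (hM2 A ν hν n m B hB hT)

theorem lemain {Δ : ℕ} (hΔ : 6 ≤ Δ) : ∃ T : ℕ → ℕ, (∀ k, 0 < T k) ∧ ∀ e : ℝ, 0 < e →
    ∃ n0 : ℕ, ∀ n : ℕ, n0 ≤ n →
      ((univ.filter fun φ : Fin (Δ * n) → Cl n => ¬ (¬ Sat φ ∧
        ∀ (k : ℕ) (Sch : Set (Fm ℕ)), (∀ ψ ∈ Sch, ψ.len ≤ k ∧ ∀ x : ℕ → Bool, ψ.eval x = true) →
        ∀ (N : ℕ) (pf : Fin N → Fm (Fin n)), IsDer Sch (Cls {l | ∃ j, l = clist (φ j)}) pf →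
          (∃ i j, pf i = Fm.neg (pf j)) → (∀ i, Few k (n / T k) (k * n) (pf i)) →
          (2 : ℝ) ^ ((n : ℝ) / T k) ≤ N)).card : ℝ) ≤
        e * Fintype.card (Fin (Δ * n) → Cl n) := by
  obtain ⟨c, hc0, hc1, hexq⟩ := exq (by omega : 1 ≤ Δ)
  obtain ⟨C, hC0, htcp⟩ := tcp (by omega : 1 ≤ Δ)
  obtain ⟨sub, hsub, hsubT⟩ := sub_ex hC0.le
  choose T hT hdet using fun k => det3 hsub (half_pos hc0) k (max k 3)
  refine ⟨T, hT, fun e he => ?_⟩
  have he3 : 0 < e / 3 := by positivity
  obtain ⟨n1, hn1⟩ := exists_pow_lt_of_lt_one (y := (9 / 10 : ℝ)) he3 (by norm_num)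
  obtain ⟨n2, hn2⟩ := exists_nat_ge (2 / c)
  obtain ⟨n3, hn3⟩ := hexq (e / 3) he3
  obtain ⟨n4, hn4⟩ := htcp (e / 3) he3
  refine ⟨n1 + n2 + n3 + n4 + 1, fun n hn => ?_⟩
  have hn1' : n1 ≤ n := by omega
  have hn2' : n2 ≤ n := by omega
  have hn0 : 0 < n := by omega
  have hnr : (0 : ℝ) < n := by exact_mod_cast hn0
  have hcn : 2 ≤ c * n := by
    have h1 : 2 / c ≤ n := hn2.trans (by exact_mod_cast hn2')
    rw [div_le_iff₀ hc0] at h1
    linarith
  obtain ⟨r, hr⟩ : ∃ r, r = ⌊c * n⌋₊ := ⟨_, rfl⟩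
  have hr1 : 1 ≤ r := by
    rw [hr]
    refine Nat.le_floor ?_
    rw [Nat.cast_one]
    linarith
  have hrl : c / 2 * n ≤ (r : ℝ) := by
    have h1 := Nat.lt_floor_add_one (c * (n : ℝ))
    rw [← hr] at h1
    linarith
  have hex := hn3 n (by omega)
  rw [← hr] at hex
  have hsat := ld_sat (n := n) hΔ
  have hbal := hn4 n (by omega)
  have hsub2 : (univ.filter fun φ : Fin (Δ * n) → Cl n => ¬ (¬ Sat φ ∧
        ∀ (k : ℕ) (Sch : Set (Fm ℕ)), (∀ ψ ∈ Sch, ψ.len ≤ k ∧ ∀ x : ℕ → Bool, ψ.eval x = true) →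
        ∀ (N : ℕ) (pf : Fin N → Fm (Fin n)), IsDer Sch (Cls {l | ∃ j, l = clist (φ j)}) pf →
          (∃ i j, pf i = Fm.neg (pf j)) → (∀ i, Few k (n / T k) (k * n) (pf i)) →
          (2 : ℝ) ^ ((n : ℝ) / T k) ≤ N)) ⊆
      ((univ.filter fun φ : Fin (Δ * n) → Cl n => Sat φ) ∪
      (univ.filter fun φ : Fin (Δ * n) → Cl n => ¬ Exp13 r φ)) ∪
      (univ.filter fun φ : Fin (Δ * n) → Cl n => ¬ Tch C (fun j => cvar (φ j))) := by
    intro φ hφ
    rw [mem_filter] at hφ
    rw [mem_union, mem_union, mem_filter, mem_filter, mem_filter]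
    by_contra hcon
    refine hφ.2 ⟨fun hs => hcon (Or.inl (Or.inl ⟨mem_univ _, hs⟩)), ?_⟩
    have h1 : Exp13 r φ := by
      by_contra h2
      exact hcon (Or.inl (Or.inr ⟨mem_univ _, h2⟩))
    have h2 : Tch C (fun j => cvar (φ j)) := by
      by_contra h3
      exact hcon (Or.inr ⟨mem_univ _, h3⟩)
    have hcv : ∀ j, (cvar (φ j)).card = 3 := by
      intro j
      unfold cvar
      rw [card_map, card_univ, Fintype.card_fin]
    have hpar : ∀ I : Finset (Fin (Δ * n)), I.card ≤ r → I.card ≤ 4 * (par (fun j => cvar (φ j)) I).card := by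
      intro I hI
      refine par_big (fun j => hcv j) ((h1 I hI).trans (le_of_eq ?_))
      congr 2
    intro k Sch hSch N pf hpf hij hsz
    refine hdet k n (Δ * n) r (fun j => cvar (φ j)) (fun j => rs (φ j)) hpar hrl
      (hsubT n (Δ * n) r _ _ hpar (fun j => (hcv j).le) h2)
      (Cls {l | ∃ j, l = clist (φ j)}) ?_ Sch ?_ N pf hpf hij hsz
    · intro F hF
      obtain ⟨h3, h4⟩ := ld_cl hr1 F hF
      exact ⟨h3.trans (le_max_right _ _), h4⟩
    · intro ψ hψ
      obtain ⟨h3, h4⟩ := hSch ψ hψ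
      exact ⟨h3.trans (le_max_left _ _), h4⟩
  obtain ⟨W, hW⟩ : ∃ W, W = Fintype.card (Fin (Δ * n) → Cl n) := ⟨_, rfl⟩
  rw [← hW] at hex hsat hbal ⊢
  have hW0 : (0 : ℝ) ≤ W := Nat.cast_nonneg _
  have h9 : (9 / 10 : ℝ) ^ n ≤ e / 3 :=
    (pow_le_pow_of_le_one (by norm_num) (by norm_num) hn1').trans hn1.le
  have hcard := ((card_le_card hsub2).trans (card_union_le _ _)).trans
    (Nat.add_le_add_right (card_union_le _ _) _)
  have hcard' := (Nat.cast_le (α := ℝ)).2 hcard
  push_cast at hcard'
  refine hcard'.trans ?_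
  have h6 : (9 / 10 : ℝ) ^ n * W ≤ e / 3 * W := mul_le_mul_of_nonneg_right h9 hW0
  linarith

/-- formulas with at most `k` alternations and few occurrences of variables -/
theorem few_leaves {V : Type} (k c n : ℕ) (F : Fm V) (hF : alt F true ≤ k ∧ alt F false ≤ k)
    (hl : F.leaves ≤ c * n) : Few (2 * k * c + k) 1 ((2 * k * c + k) * n) F := by
  have hom : ∀ w s : ℕ, om w s ≤ 2 * s := by
    intro w s
    unfold om
    split_ifs
    · rcases Nat.eq_zero_or_pos s with hs | hs
      · subst hs
        simp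
      · have h1 : 2 ^ Nat.log 2 s ≤ s := Nat.pow_log_le_self 2 (by omega)
        have h2 : ∀ m : ℕ, m ^ 2 ≤ 2 * 2 ^ m := by
          intro m
          induction m with
          | zero => norm_num
          | succ m ih =>
            rcases Nat.lt_or_ge m 3 with h3 | h3
            · interval_cases m <;> norm_num
            · rw [pow_succ 2 m]
              nlinarith
        have h3 := h2 (Nat.log 2 s)
        omega
    · exact Nat.zero_le _
  have key : ∀ (w : ℕ) (G : Fm V) (b : Bool), wb w G b ≤ 2 * alt G b * G.leaves := by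
    intro w G
    induction G with
    | var v =>
      intro b
      exact Nat.zero_le _
    | neg A ih =>
      intro b
      exact ih (!b)
    | imp A B ihA ihB =>
      intro b
      have hA := ihA true
      have hB := ihB false
      obtain ⟨m, hm⟩ : ∃ m, m = max (alt A true) (alt B false) := ⟨_, rfl⟩
      have h1 : 2 * alt A true * A.leaves ≤ 2 * m * A.leaves := by
        have : alt A true ≤ m := by omega
        gcongr
      have h2 : 2 * alt B false * B.leaves ≤ 2 * m * B.leaves := by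
        have : alt B false ≤ m := by omega
        gcongr
      have h3 : (Fm.imp A B).leaves = A.leaves + B.leaves := rfl
      cases b with
      | false =>
        have h4 : wb w (Fm.imp A B) false = wb w A true + wb w B false := rfl
        have h5 : alt (Fm.imp A B) false = m := hm.symm
        rw [h4, h5, h3, Nat.mul_add]
        omega
      | true =>
        have h4 : wb w (Fm.imp A B) true = wb w A true + wb w B false + om w (Fm.imp A B).leaves := rfl
        have h5 : alt (Fm.imp A B) true = m + 1 := by rw [hm]; rfl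
        have h6 := hom w (Fm.imp A B).leaves
        rw [h3] at h6
        rw [h4, h5, h3]
        have h7 : 2 * (m + 1) * (A.leaves + B.leaves) =
          2 * m * A.leaves + 2 * m * B.leaves + 2 * (A.leaves + B.leaves) := by ring
        omega
  have hP : Pc (2 * k * c + k) F := ⟨by omega, by omega⟩
  unfold Few
  rw [ps_piece hP, sum_singleton, card_singleton]
  refine ⟨le_rfl, ?_⟩
  have h1 : ∀ b, wb (2 * k * c + k) F b ≤ (2 * k * c + k) * n := by
    intro b
    refine (key _ F b).trans ?_
    have h2 : alt F b ≤ k := by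
      cases b
      · exact hF.2
      · exact hF.1
    calc 2 * alt F b * F.leaves ≤ 2 * k * (c * n) := by gcongr
      _ = 2 * k * c * n := by ring
      _ ≤ (2 * k * c + k) * n := by
        rw [Nat.add_mul]
        omega
  exact max_le (h1 true) (h1 false)

/-- conjunctions (`b = true`) and disjunctions (`b = false`) of formulas with at most `k` occurrences of variables -/
theorem few_small {V : Type} (k n : ℕ) (F : Fm V) (b : Bool) (hF : ∀ p ∈ cj F b, p.1.leaves ≤ k)
    (hl : Nat.log 2 F.leaves ^ 2 ≤ k * n) : Few k 1 (k * n) F := by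
  have hz : ∀ (G : Fm V) (c : Bool), G.leaves ≤ k → wb k G c = 0 := by
    intro G
    induction G with
    | var v =>
      intro c _
      rfl
    | neg A ih =>
      intro c h
      exact ih (!c) h
    | imp A B ihA ihB =>
      intro c h
      have h3 : (Fm.imp A B).leaves = A.leaves + B.leaves := rfl
      rw [h3] at h
      have hA := ihA true (by omega)
      have hB := ihB false (by omega)
      cases c with
      | false =>
        show wb k A true + wb k B false = 0
        omega
      | true =>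
        have h4 : om k (Fm.imp A B).leaves = 0 := by
          unfold om
          rw [if_neg (by omega)]
        show wb k A true + wb k B false + om k (Fm.imp A B).leaves = 0
        omega
  have ha : ∀ (G : Fm V) (c : Bool), alt G c + 1 ≤ G.leaves := by
    intro G
    induction G with
    | var v =>
      intro c
      exact le_rfl
    | neg A ih =>
      intro c
      exact ih (!c)
    | imp A B ihA ihB =>
      intro c
      have h3 : (Fm.imp A B).leaves = A.leaves + B.leaves := rfl
      have hA := ihA true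
      have hB := ihB false
      cases c with
      | false =>
        show max (alt A true) (alt B false) + 1 ≤ A.leaves + B.leaves
        omega
      | true =>
        show max (alt A true) (alt B false) + 1 + 1 ≤ A.leaves + B.leaves
        omega
  have hm : ∀ (m : ℕ) (G : Fm V) (c : Bool), (∀ p ∈ cj G c, alt p.1 p.2 ≤ m) → alt G c ≤ m := by
    intro m G
    induction G with
    | var v =>
      intro c _
      exact Nat.zero_le _
    | neg A ih =>
      intro c h
      exact ih (!c) h
    | imp A B ihA ihB =>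
      intro c h
      cases c with
      | false =>
        have h1 : cj (Fm.imp A B) false = cj A true ++ cj B false := rfl
        rw [h1] at h
        have hA := ihA true fun p hp => h p (List.mem_append_left _ hp)
        have hB := ihB false fun p hp => h p (List.mem_append_right _ hp)
        exact max_le hA hB
      | true =>
        exact h (Fm.imp A B, true) (by
          have h1 : cj (Fm.imp A B) true = [(Fm.imp A B, true)] := rfl
          rw [h1]
          exact List.mem_singleton.2 rfl)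
  have hw1 : wb k F b = 0 := by
    rw [← cj_lw]
    have : ∀ l : List (Fm V × Bool), (∀ p ∈ l, p.1.leaves ≤ k) → lw k l = 0 := by
      intro l
      induction l with
      | nil =>
        intro _
        simp [lw]
      | cons a l ih =>
        intro h
        rw [lw_cons, hz a.1 a.2 (h a List.mem_cons_self), ih fun p hp => h p (List.mem_cons_of_mem _ hp)]
    exact this _ hF
  have hom : om k F.leaves ≤ k * n := by
    unfold om
    split_ifs
    · exact hl
    · exact Nat.zero_le _
  have h1 := wb_pm (k := k) F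
  have h2 := alt_pm F
  have h3 : alt F b + 1 ≤ k := by
    rcases Nat.eq_zero_or_pos k with hk | hk
    · subst hk
      exfalso
      have h4 : ∃ p, p ∈ cj F b := by
        by_contra h5
        push Not at h5
        have h6 : cj F b = [] := List.eq_nil_iff_forall_not_mem.2 h5
        have h7 := cj_lvs F b
        rw [h6] at h7
        have h8 := leaves_pos F
        simp [lvs] at h7
        omega
      obtain ⟨p, hp⟩ := h4
      have h5 := hF p hp
      have h6 := leaves_pos p.1
      omega
    · have h4 := hm (k - 1) F b fun p hp => by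
        have h5 := ha p.1 p.2
        have h6 := hF p hp
        omega
      omega
  have hP : Pc k F := by
    unfold Pc
    cases b
    · exact ⟨by omega, by omega⟩
    · exact ⟨by omega, by omega⟩
  unfold Few
  rw [ps_piece hP, sum_singleton, card_singleton]
  refine ⟨le_rfl, ?_⟩
  cases b
  · exact max_le (by omega) (by omega)
  · exact max_le (by omega) (by omega)

end Pool.H6.LD
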